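import Pool.Agent.Run7.h969.Dy.Defs

/-!
The dyadic model: decay, higher regularity and smoothing (helper969).
-/

set_option autoImplicit false

open Set Filter Topology

namespace Run7.h969.Dy

/-- The comparison with the linear equation. -/
theorem decay {f f' : ℝ → ℝ} {l M a t : ℝ} (hat : a ≤ t) (hc : ContinuousOn f (Icc a t))
    (hd : ∀ s ∈ Ioo a t, HasDerivAt f (f' s) s) (hb : ∀ s ∈ Ioo a t, f' s ≤ l * (M - f s)) :
    f t - M ≤ (f a - M) * Real.exp (-(l * (t - a))) := by
  have hanti : AntitoneOn (fun s => (f s - M) * Real.exp (l * (s - a))) (Icc a t) := by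
    have hder : ∀ s ∈ Ioo a t, HasDerivAt (fun s => (f s - M) * Real.exp (l * (s - a)))
        (f' s * Real.exp (l * (s - a)) + (f s - M) * (Real.exp (l * (s - a)) * l)) s := by
      intro s hs
      have h1 : HasDerivAt (fun s : ℝ => l * (s - a)) l s := by
        simpa using ((hasDerivAt_id s).sub_const a).const_mul l
      exact ((hd s hs).sub_const M).mul h1.exp
    apply antitoneOn_of_deriv_nonpos (convex_Icc a t)
    · exact (hc.sub continuousOn_const).mul (by fun_prop)
    · intro s hs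
      rw [interior_Icc] at hs
      exact (hder s hs).differentiableAt.differentiableWithinAt
    · intro s hs
      rw [interior_Icc] at hs
      rw [(hder s hs).deriv]
      have h1 := hb s hs
      have h2 : f' s * Real.exp (l * (s - a)) + (f s - M) * (Real.exp (l * (s - a)) * l)
          = (f' s - l * (M - f s)) * Real.exp (l * (s - a)) := by ring
      rw [h2]
      exact mul_nonpos_of_nonpos_of_nonneg (by linarith) (Real.exp_pos _).le
  have h1 := hanti (left_mem_Icc.2 hat) (right_mem_Icc.2 hat) hat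
  simp only [sub_self, mul_zero, Real.exp_zero, mul_one] at h1
  have h2 : Real.exp (l * (t - a)) * Real.exp (-(l * (t - a))) = 1 := by
    rw [← Real.exp_add, add_neg_cancel, Real.exp_zero]
  calc f t - M = (f t - M) * (Real.exp (l * (t - a)) * Real.exp (-(l * (t - a)))) := by
        rw [h2, mul_one]
    _ = (f t - M) * Real.exp (l * (t - a)) * Real.exp (-(l * (t - a))) := by ring
    _ ≤ (f a - M) * Real.exp (-(l * (t - a))) :=
        mul_le_mul_of_nonneg_right h1 (Real.exp_pos _).le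

lemma pow_mul_nat (β : ℝ) (n : ℕ) : (2 : ℝ) ^ (β * n) = ((2 : ℝ) ^ β) ^ n := by
  rw [Real.rpow_mul (by norm_num), Real.rpow_natCast]

/-- The upper bound of the right hand side. -/
lemma rhs_le {β ν : ℝ} {x : ℕ → ℝ} (hx : ∀ n, 0 ≤ x n) (n : ℕ) :
    rhs β ν x (n + 1) ≤ ((2 : ℝ) ^ β) ^ n * x n ^ 2 - ν * 4 ^ (n + 1) * x (n + 1) := by
  show (2 : ℝ) ^ (β * n) * x n ^ 2 - (2 : ℝ) ^ (β * (n + 1)) * (x (n + 1) * x (n + 2))
      - ν * 4 ^ (n + 1) * x (n + 1) ≤ _
  rw [pow_mul_nat]
  have h1 : 0 ≤ (2 : ℝ) ^ (β * (n + 1)) * (x (n + 1) * x (n + 2)) :=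
    mul_nonneg (Real.rpow_nonneg (by norm_num) _) (mul_nonneg (hx _) (hx _))
  linarith

/-- One step of the recursion, with the decay of the initial value. -/
theorem step_le {β ν a P : ℝ} {x : ℕ → ℝ} {X : ℕ → ℝ → ℝ} (hν : 0 < ν) (hX : IsDy β ν x X)
    (hX0 : ∀ n t, 0 ≤ t → 0 ≤ X n t) (ha : 0 ≤ a) (n : ℕ)
    (hP : ∀ t, a ≤ t → ((2 : ℝ) ^ β) ^ n * X n t ^ 2 ≤ ν * 4 ^ (n + 1) * P) :
    ∀ t, a ≤ t → X (n + 1) t - P
      ≤ (X (n + 1) a - P) * Real.exp (-(ν * 4 ^ (n + 1) * (t - a))) := by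
  intro t ht
  apply decay (f' := fun s => rhs β ν (fun k => X k s) (n + 1)) ht
  · exact (hX.cont (n + 1)).mono fun s hs => ha.trans hs.1
  · intro s hs
    exact hX.ode (n + 1) s (ha.trans_lt hs.1)
  · intro s hs
    have h1 := rhs_le (β := β) (ν := ν) (x := fun k => X k s) (fun k => hX0 k s (ha.trans hs.1.le)) n
    have h2 := hP s hs.1.le
    linarith

theorem stmD : StmD := by
  intro β ν s C r K x X hν hs hX hX0 hXs hK
  obtain ⟨B, hB⟩ : ∃ B : ℝ, B = 2 ^ β := ⟨_, rfl⟩
  obtain ⟨q, hq⟩ : ∃ q : ℝ, q = 2 ^ s := ⟨_, rfl⟩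
  obtain ⟨R, hR⟩ : ∃ R : ℝ, R = 2 ^ r := ⟨_, rfl⟩
  have hB0 : 0 < B := by rw [hB]; exact Real.rpow_pos_of_pos two_pos _
  have hq0 : 0 < q := by rw [hq]; exact Real.rpow_pos_of_pos two_pos _
  have hR0 : 0 < R := by rw [hR]; exact Real.rpow_pos_of_pos two_pos _
  have hσ : B / (4 * q) < 1 := by
    rw [div_lt_one (by positivity), hB, hq]
    have h1 : (4 : ℝ) * 2 ^ s = 2 ^ (2 + s) := by
      rw [Real.rpow_add two_pos]
      norm_num
    rw [h1]
    exact Real.rpow_lt_rpow_of_exponent_lt (by norm_num) (by linarith)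
  have hσ0 : 0 < B / (4 * q) := by positivity
  have hC0 : 0 ≤ C := by
    have h1 := hXs 0 0 le_rfl
    simp only [Nat.cast_zero, mul_zero, Real.rpow_zero, one_mul] at h1
    exact (hX0 0 0 le_rfl).trans h1
  have hXs' : ∀ (n : ℕ) t, 0 ≤ t → q ^ n * X n t ≤ C := by
    intro n t ht
    have := hXs n t ht
    rwa [pow_mul_nat, ← hq] at this
  have hK' : ∀ n : ℕ, R ^ n * x n ≤ K := by
    intro n
    have := hK n
    rwa [pow_mul_nat, ← hR] at this
  obtain ⟨n₀, hn₀⟩ : ∃ n₀ : ℕ, ∀ n ≥ n₀, R * (C / (4 * ν)) * (B / (4 * q)) ^ n ≤ 1 := by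
    have h1 : Tendsto (fun n : ℕ => R * (C / (4 * ν)) * (B / (4 * q)) ^ n) atTop (𝓝 0) := by
      have := (tendsto_pow_atTop_nhds_zero_of_lt_one hσ0.le hσ).const_mul (R * (C / (4 * ν)))
      simpa using this
    have h2 := h1.eventually (gt_mem_nhds one_pos)
    obtain ⟨n₀, hn₀⟩ := eventually_atTop.1 h2
    exact ⟨n₀, fun n hn => (hn₀ n hn).le⟩
  -- the constant
  obtain ⟨C', hC'⟩ : ∃ C', C' = max K (∑ n ∈ Finset.range (n₀ + 1), R ^ n * (C / q ^ n)) := ⟨_, rfl⟩
  have hsmall : ∀ n ≤ n₀, ∀ t, 0 ≤ t → R ^ n * X n t ≤ C' := by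
    intro n hn t ht
    have h1 : R ^ n * (C / q ^ n) ≤ ∑ n ∈ Finset.range (n₀ + 1), R ^ n * (C / q ^ n) :=
      Finset.single_le_sum (f := fun n => R ^ n * (C / q ^ n)) (fun n _ => by positivity)
        (Finset.mem_range.2 (by omega))
    have h2 : X n t ≤ C / q ^ n := by
      rw [le_div_iff₀ (by positivity), mul_comm]
      exact hXs' n t ht
    rw [hC']
    exact (mul_le_mul_of_nonneg_left h2 (by positivity)).trans (h1.trans (le_max_right _ _))
  have hall : ∀ n : ℕ, ∀ t, 0 ≤ t → R ^ n * X n t ≤ C' := by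
    intro n
    induction n with
    | zero => exact hsmall 0 (Nat.zero_le _)
    | succ n ih =>
      by_cases hn : n + 1 ≤ n₀
      · exact hsmall _ hn
      · intro t ht
        have hnn : n₀ ≤ n := by omega
        have hC'0 : 0 ≤ C' := (mul_nonneg (by positivity) (hX0 n 0 le_rfl)).trans (ih 0 le_rfl)
        have hstep := step_le hν hX hX0 le_rfl n (P := C' / R ^ (n + 1)) (fun τ hτ => ?_) t ht
        · have h1 : X (n + 1) 0 - C' / R ^ (n + 1) ≤ 0 := by
            rw [hX.init, sub_nonpos, le_div_iff₀ (by positivity), mul_comm]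
            exact (hK' (n + 1)).trans (by rw [hC']; exact le_max_left _ _)
          have h2 := mul_nonpos_of_nonpos_of_nonneg h1
            (Real.exp_pos (-(ν * 4 ^ (n + 1) * (t - 0)))).le
          have h3 : X (n + 1) t ≤ C' / R ^ (n + 1) := by linarith
          rw [le_div_iff₀ (by positivity), mul_comm] at h3
          exact h3
        · -- the source
          have h1 : X n τ ≤ C / q ^ n := by
            rw [le_div_iff₀ (by positivity), mul_comm]
            exact hXs' n τ hτ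
          have h2 : X n τ ≤ C' / R ^ n := by
            rw [le_div_iff₀ (by positivity), mul_comm]
            exact ih τ hτ
          have h3 : X n τ ^ 2 ≤ (C / q ^ n) * (C' / R ^ n) := by
            rw [sq]
            exact mul_le_mul h1 h2 (hX0 n τ hτ) (by positivity)
          have h4 := hn₀ n hnn
          rw [← hB]
          calc B ^ n * X n τ ^ 2 ≤ B ^ n * ((C / q ^ n) * (C' / R ^ n)) :=
                mul_le_mul_of_nonneg_left h3 (by positivity)
            _ = (R * (C / (4 * ν)) * (B / (4 * q)) ^ n) *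
                  (ν * 4 ^ (n + 1) * (C' / R ^ (n + 1))) := by
                rw [div_pow, mul_pow]
                field_simp
                ring
            _ ≤ 1 * (ν * 4 ^ (n + 1) * (C' / R ^ (n + 1))) :=
                mul_le_mul_of_nonneg_right h4 (by positivity)
            _ = _ := one_mul _
  refine ⟨C', fun n t ht => ?_⟩
  rw [pow_mul_nat, ← hR]
  exact hall n t ht

/-- One step of the smoothing. -/
theorem smooth_step {β ν s e C a δ : ℝ} {x : ℕ → ℝ} {X : ℕ → ℝ → ℝ} (hν : 0 < ν)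
    (hX : IsDy β ν x X) (hX0 : ∀ n t, 0 ≤ t → 0 ≤ X n t) (ha : 0 ≤ a) (hδ : 0 < δ)
    (he : β - 2 + e ≤ s) (h : ∀ (n : ℕ) t, a ≤ t → (2 : ℝ) ^ (s * n) * X n t ≤ C) :
    ∃ C' : ℝ, ∀ (n : ℕ) t, a + δ ≤ t → (2 : ℝ) ^ ((s + e) * n) * X n t ≤ C' := by
  obtain ⟨B, hB⟩ : ∃ B : ℝ, B = 2 ^ β := ⟨_, rfl⟩
  obtain ⟨q, hq⟩ : ∃ q : ℝ, q = 2 ^ s := ⟨_, rfl⟩
  obtain ⟨p, hp⟩ : ∃ p : ℝ, p = 2 ^ e := ⟨_, rfl⟩
  have hB0 : 0 < B := by rw [hB]; exact Real.rpow_pos_of_pos two_pos _
  have hq0 : 0 < q := by rw [hq]; exact Real.rpow_pos_of_pos two_pos _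
  have hp0 : 0 < p := by rw [hp]; exact Real.rpow_pos_of_pos two_pos _
  have hBpq : B * p ≤ 4 * q := by
    rw [hB, hp, hq]
    have h1 : (4 : ℝ) * 2 ^ s = 2 ^ (2 + s) := by
      rw [Real.rpow_add two_pos]
      norm_num
    rw [h1, ← Real.rpow_add two_pos]
    exact Real.rpow_le_rpow_of_exponent_le (by norm_num) (by linarith)
  have hC0 : 0 ≤ C := by
    have h1 := h 0 a le_rfl
    simp only [Nat.cast_zero, mul_zero, Real.rpow_zero, one_mul] at h1
    exact (hX0 0 a ha).trans h1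
  have h' : ∀ (n : ℕ) t, a ≤ t → q ^ n * X n t ≤ C := by
    intro n t ht
    have := h n t ht
    rwa [pow_mul_nat, ← hq] at this
  -- the decay of the initial value
  have hlim : Tendsto (fun n : ℕ => p ^ n * Real.exp (-(ν * 4 ^ n * δ))) atTop (𝓝 0) := by
    have h1 : Tendsto (fun n : ℕ => (n : ℝ) * Real.log p - ν * δ * 4 ^ n) atTop atBot := by
      have h2 : Tendsto (fun n : ℕ => (ν * δ) * 4 ^ n * ((n : ℝ) / 4 ^ n * (Real.log p / (ν * δ)) - 1))
          atTop atBot := by
        have h3 : Tendsto (fun n : ℕ => (n : ℝ) / 4 ^ n * (Real.log p / (ν * δ)) - 1) atTop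
            (𝓝 (0 * (Real.log p / (ν * δ)) - 1)) := by
          have h4 : Tendsto (fun n : ℕ => (n : ℝ) / 4 ^ n) atTop (𝓝 0) := by
            have := tendsto_self_mul_const_pow_of_lt_one (r := (1 / 4 : ℝ)) (by norm_num)
              (by norm_num)
            refine this.congr fun n => ?_
            rw [one_div, inv_pow]
            rfl
          exact (h4.mul_const _).sub_const 1
        have h5 : Tendsto (fun n : ℕ => (ν * δ) * (4 : ℝ) ^ n) atTop atTop :=
          (tendsto_pow_atTop_atTop_of_one_lt (by norm_num)).const_mul_atTop (by positivity)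
        exact h5.atTop_mul_neg (by norm_num : (0 : ℝ) * (Real.log p / (ν * δ)) - 1 < 0) h3
      refine h2.congr fun n => ?_
      field_simp
    have h6 := Real.tendsto_exp_atBot.comp h1
    refine h6.congr fun n => ?_
    simp only [Function.comp_apply]
    rw [sub_eq_add_neg, Real.exp_add, mul_comm (n : ℝ), Real.exp_mul, Real.exp_log hp0,
      Real.rpow_natCast]
    congr 2
    ring
  obtain ⟨A, hA⟩ := hlim.bddAbove_range
  have hA' : ∀ n : ℕ, p ^ n * Real.exp (-(ν * 4 ^ n * δ)) ≤ A := fun n => hA ⟨n, rfl⟩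
  have hA0 : 0 ≤ A := by
    refine le_trans ?_ (hA' 0)
    positivity
  obtain ⟨M, hM⟩ : ∃ M, M = p * q * C ^ 2 / (4 * ν) := ⟨_, rfl⟩
  have hM0 : 0 ≤ M := by rw [hM]; positivity
  refine ⟨M + C * A + C, fun n t ht => ?_⟩
  rw [pow_mul_nat, Real.rpow_add two_pos, ← hq, ← hp]
  rcases Nat.eq_zero_or_pos n with h0 | hpos
  · subst h0
    rw [pow_zero, one_mul]
    have h1 := h' 0 t (by linarith)
    rw [pow_zero, one_mul] at h1
    have : 0 ≤ C * A := by positivity
    linarith
  · obtain ⟨m, rfl⟩ : ∃ m, n = m + 1 := ⟨n - 1, by omega⟩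
    have hstep := step_le hν hX hX0 ha m (P := M / (q * p) ^ (m + 1)) (fun τ hτ => ?_) t
      (by linarith)
    · have h1 : (X (m + 1) a - M / (q * p) ^ (m + 1)) * Real.exp (-(ν * 4 ^ (m + 1) * (t - a)))
          ≤ C / q ^ (m + 1) * Real.exp (-(ν * 4 ^ (m + 1) * δ)) := by
        apply mul_le_mul _ _ (Real.exp_pos _).le (by positivity)
        · have h2 : X (m + 1) a ≤ C / q ^ (m + 1) := by
            rw [le_div_iff₀ (by positivity), mul_comm]
            exact h' (m + 1) a le_rfl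
          have h3 : 0 ≤ M / (q * p) ^ (m + 1) := by positivity
          linarith
        · apply Real.exp_le_exp.2
          have h2 : ν * 4 ^ (m + 1) * δ ≤ ν * 4 ^ (m + 1) * (t - a) :=
            mul_le_mul_of_nonneg_left (by linarith) (by positivity)
          linarith
      have h2 : X (m + 1) t ≤ M / (q * p) ^ (m + 1)
          + C / q ^ (m + 1) * Real.exp (-(ν * 4 ^ (m + 1) * δ)) := by linarith
      calc (q * p) ^ (m + 1) * X (m + 1) t ≤ (q * p) ^ (m + 1) * (M / (q * p) ^ (m + 1)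
          + C / q ^ (m + 1) * Real.exp (-(ν * 4 ^ (m + 1) * δ))) :=
            mul_le_mul_of_nonneg_left h2 (by positivity)
        _ = M + C * (p ^ (m + 1) * Real.exp (-(ν * 4 ^ (m + 1) * δ))) := by
            rw [mul_pow]
            field_simp
        _ ≤ M + C * A + C := by
            have := mul_le_mul_of_nonneg_left (hA' (m + 1)) hC0
            linarith
    · -- the source
      have h1 : X m τ ≤ C / q ^ m := by
        rw [le_div_iff₀ (by positivity), mul_comm]
        exact h' m τ hτ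
      have h2 : X m τ ^ 2 ≤ (C / q ^ m) ^ 2 :=
        pow_le_pow_left₀ (hX0 m τ (ha.trans hτ)) h1 2
      have h3 : (B * p) ^ m ≤ (4 * q) ^ m := pow_le_pow_left₀ (by positivity) hBpq m
      rw [← hB]
      calc B ^ m * X m τ ^ 2 ≤ B ^ m * (C / q ^ m) ^ 2 :=
            mul_le_mul_of_nonneg_left h2 (by positivity)
        _ = (B * p) ^ m * (C ^ 2 / (p ^ m * (q ^ m) ^ 2)) := by
            rw [mul_pow, div_pow]
            field_simp
        _ ≤ (4 * q) ^ m * (C ^ 2 / (p ^ m * (q ^ m) ^ 2)) :=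
            mul_le_mul_of_nonneg_right h3 (by positivity)
        _ = ν * 4 ^ (m + 1) * (M / (q * p) ^ (m + 1)) := by
            rw [hM, mul_pow, mul_pow]
            field_simp
            ring

theorem stmS : StmS := by
  intro β ν s C x X hν hs hX hX0 hXs τ r hτ
  obtain ⟨e, he⟩ : ∃ e, e = s - (β - 2) := ⟨_, rfl⟩
  have he0 : 0 < e := by rw [he]; linarith
  obtain ⟨k, hk⟩ := exists_nat_gt ((r - s) / e)
  rw [div_lt_iff₀ he0] at hk
  have hall : ∀ j : ℕ, ∃ C' : ℝ, ∀ (n : ℕ) t, (j : ℝ) * (τ / (k + 1)) ≤ t →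
      (2 : ℝ) ^ ((s + j * e) * n) * X n t ≤ C' := by
    intro j
    induction j with
    | zero =>
      refine ⟨C, fun n t ht => ?_⟩
      simp only [Nat.cast_zero, zero_mul, add_zero] at ht ⊢
      exact hXs n t ht
    | succ j ih =>
      obtain ⟨C₁, hC₁⟩ := ih
      have hj : (0 : ℝ) ≤ (j : ℝ) * e := by positivity
      obtain ⟨C', hC'⟩ := smooth_step hν hX hX0 (a := (j : ℝ) * (τ / (k + 1)))
        (δ := τ / (k + 1)) (s := s + j * e) (e := e) (by positivity) (by positivity)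
        (by linarith) hC₁
      refine ⟨C', fun n t ht => ?_⟩
      have h1 := hC' n t (by push_cast at ht; linarith)
      have h2 : s + ((j + 1 : ℕ) : ℝ) * e = s + j * e + e := by
        push_cast
        ring
      rw [h2]
      exact h1
  obtain ⟨C', hC'⟩ := hall k
  refine ⟨C', fun n t ht => ?_⟩
  have h1 := hC' n t (by
    refine le_trans ?_ ht
    rw [mul_div_assoc', div_le_iff₀ (by positivity)]
    nlinarith)
  have h2 : (2 : ℝ) ^ (r * n) ≤ (2 : ℝ) ^ ((s + k * e) * n) := by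
    apply Real.rpow_le_rpow_of_exponent_le (by norm_num)
    apply mul_le_mul_of_nonneg_right _ (Nat.cast_nonneg n)
    linarith
  exact (mul_le_mul_of_nonneg_right h2 (hX0 n t (hτ.le.trans ht))).trans h1

end Run7.h969.Dy
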