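import Pool.Agent.Run7.h969.Dy.Par
import Pool.Agent.Run7.h969.Dy.Reg

/-!
The dyadic model: the decay with a rate better than the critical one (helper969).
-/

set_option autoImplicit false

open Set Filter Topology

namespace Run7.h969.Dy

/-- The energy of the initial value. -/
lemma energy_bd {s K : ℝ} {x : ℕ → ℝ} (hs : 0 < s) (hx : ∀ n, 0 ≤ x n)
    (hK : ∀ n : ℕ, (2 : ℝ) ^ (s * n) * x n ≤ K) (N : ℕ) :
    ∑ n ∈ Finset.range (N + 1), x n ^ 2 ≤ K ^ 2 / (1 - ((2 : ℝ) ^ s)⁻¹ ^ 2) := by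
  obtain ⟨q, hq⟩ : ∃ q : ℝ, q = 2 ^ s := ⟨_, rfl⟩
  have hq1 : 1 < q := by rw [hq]; exact Real.one_lt_rpow (by norm_num) hs
  have hq0 : 0 < q := by linarith
  have hK0 : 0 ≤ K := by
    have := hK 0
    simp only [Nat.cast_zero, mul_zero, Real.rpow_zero, one_mul] at this
    exact (hx 0).trans this
  have h1 : ∀ n, x n ^ 2 ≤ K ^ 2 * (q⁻¹ ^ 2) ^ n := by
    intro n
    have h2 := hK n
    rw [pow_mul_nat, ← hq] at h2
    have h3 : x n ≤ K * q⁻¹ ^ n := by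
      rw [inv_pow, ← div_eq_mul_inv, le_div_iff₀ (by positivity), mul_comm]
      exact h2
    calc x n ^ 2 ≤ (K * q⁻¹ ^ n) ^ 2 := pow_le_pow_left₀ (hx n) h3 2
      _ = K ^ 2 * (q⁻¹ ^ 2) ^ n := by ring
  have hr0 : 0 ≤ q⁻¹ ^ 2 := by positivity
  have hr1 : q⁻¹ ^ 2 < 1 := by
    have : q⁻¹ < 1 := inv_lt_one_of_one_lt₀ hq1
    exact pow_lt_one₀ (by positivity) this (by norm_num)
  rw [← hq]
  calc ∑ n ∈ Finset.range (N + 1), x n ^ 2
      ≤ ∑ n ∈ Finset.range (N + 1), K ^ 2 * (q⁻¹ ^ 2) ^ n := Finset.sum_le_sum fun n _ => h1 n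
    _ = K ^ 2 * ∑ n ∈ Finset.range (N + 1), (q⁻¹ ^ 2) ^ n := by rw [Finset.mul_sum]
    _ ≤ K ^ 2 * (1 - q⁻¹ ^ 2)⁻¹ := by
        apply mul_le_mul_of_nonneg_left _ (by positivity)
        have h2 := (summable_geometric_of_lt_one hr0 hr1).sum_le_tsum (Finset.range (N + 1))
          (fun n _ => by positivity)
        rwa [tsum_geometric_of_lt_one hr0 hr1] at h2
    _ = K ^ 2 / (1 - q⁻¹ ^ 2) := by rw [div_eq_mul_inv]

/-- Bounds from the energy. -/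
lemma le_energy (hB : StmB) {β ν s K T : ℝ} {N : ℕ} {x : ℕ → ℝ} {X : ℕ → ℝ → ℝ} (hν : 0 < ν)
    (hT : 0 < T) (hs : 0 < s) (hx : ∀ n, 0 ≤ x n) (hK : ∀ n : ℕ, (2 : ℝ) ^ (s * n) * x n ≤ K)
    (hG : Gal β ν T N x X) {t : ℝ} (ht : t ∈ Icc 0 T) (n : ℕ) :
    X n t ≤ √(K ^ 2 / (1 - ((2 : ℝ) ^ s)⁻¹ ^ 2)) := by
  obtain ⟨h0, hen⟩ := hB β ν T N x X hν hT hx hG t ht
  by_cases hn : n ≤ N
  · apply Real.le_sqrt_of_sq_le
    have h1 : X n t ^ 2 ≤ ∑ n ∈ Finset.range (N + 1), X n t ^ 2 :=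
      Finset.single_le_sum (f := fun n => X n t ^ 2) (fun n _ => sq_nonneg _)
        (Finset.mem_range.2 (by omega))
    have h2 := energy_bd hs hx hK N
    have h3 : 0 ≤ 2 * ν * ∫ s in (0 : ℝ)..t, ∑ n ∈ Finset.range (N + 1), 4 ^ n * X n s ^ 2 := by
      apply mul_nonneg (by positivity)
      exact intervalIntegral.integral_nonneg ht.1 fun s _ =>
        Finset.sum_nonneg fun n _ => by positivity
    linarith
  · rw [hG.zero n (by omega) t]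
    exact Real.sqrt_nonneg _

lemma gal_cont {β ν T : ℝ} {N : ℕ} {x : ℕ → ℝ} {X : ℕ → ℝ → ℝ} (hG : Gal β ν T N x X) (n : ℕ) :
    ContinuousOn (X n) (Icc 0 T) := by
  by_cases hn : n ≤ N
  · exact fun t ht => (hG.ode n hn t ht).continuousWithinAt
  · have h1 : X n = fun _ => 0 := funext fun t => hG.zero n (by omega) t
    rw [h1]
    exact continuousOn_const

/-- The case `β < 2`. -/
theorem crit_low (hB : StmB) {β ν s K : ℝ} (hβ : β < 2) (hν : 0 < ν) (hs : 0 < s) (hK0 : 0 ≤ K) :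
    ∃ s' C : ℝ, 0 < s' ∧ β - 2 < s' ∧ s' ≤ s ∧ ∀ (T : ℝ) (N : ℕ) (x : ℕ → ℝ) (X : ℕ → ℝ → ℝ),
    0 < T → (∀ n, 0 ≤ x n) → (∀ n : ℕ, (2 : ℝ) ^ (s * n) * x n ≤ K) → Gal β ν T N x X →
      ∀ t ∈ Icc 0 T, ∀ n : ℕ, (2 : ℝ) ^ (s' * n) * X n t ≤ C := by
  obtain ⟨S, hS⟩ : ∃ S, S = √(K ^ 2 / (1 - ((2 : ℝ) ^ s)⁻¹ ^ 2)) := ⟨_, rfl⟩
  have hS0 : 0 ≤ S := by rw [hS]; exact Real.sqrt_nonneg _
  obtain ⟨B, hB'⟩ : ∃ B : ℝ, B = 2 ^ β := ⟨_, rfl⟩
  have hB0 : 0 < B := by rw [hB']; exact Real.rpow_pos_of_pos two_pos _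
  obtain ⟨s', hs'⟩ : ∃ s', s' = min s (2 - β) := ⟨_, rfl⟩
  have hs'0 : 0 < s' := by rw [hs']; exact lt_min hs (by linarith)
  have hs's : s' ≤ s := by rw [hs']; exact min_le_left _ _
  have hs'b : s' ≤ 2 - β := by rw [hs']; exact min_le_right _ _
  obtain ⟨r, hr⟩ : ∃ r : ℝ, r = 2 ^ s' := ⟨_, rfl⟩
  have hr0 : 0 < r := by rw [hr]; exact Real.rpow_pos_of_pos two_pos _
  have hrq : r ≤ 2 ^ s := by
    rw [hr]
    exact Real.rpow_le_rpow_of_exponent_le (by norm_num) hs's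
  have hrB : r * B ≤ 4 := by
    rw [hr, hB', ← Real.rpow_add two_pos]
    have h1 : (4 : ℝ) = 2 ^ (2 : ℝ) := by norm_num
    rw [h1]
    exact Real.rpow_le_rpow_of_exponent_le (by norm_num) (by linarith)
  refine ⟨s', S + K + r * S ^ 2 / (4 * ν), hs'0, by linarith, hs's, ?_⟩
  intro T N x X hT hx hK hG t ht n
  have hle : ∀ t ∈ Icc 0 T, ∀ n, X n t ≤ S := fun t ht n => by
    rw [hS]
    exact le_energy hB hν hT hs hx hK hG ht n
  have hX0 : ∀ t ∈ Icc 0 T, ∀ n, 0 ≤ X n t := fun t ht => (hB β ν T N x X hν hT hx hG t ht).1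
  have hF0 : 0 ≤ r * S ^ 2 / (4 * ν) := by positivity
  rw [pow_mul_nat, ← hr]
  by_cases hn : n ≤ N
  · rcases Nat.eq_zero_or_pos n with h0 | hpos
    · subst h0
      rw [pow_zero, one_mul]
      have := hle t ht 0
      linarith
    · obtain ⟨m, rfl⟩ : ∃ m, n = m + 1 := ⟨n - 1, by omega⟩
      obtain ⟨P, hP⟩ : ∃ P, P = (K + r * S ^ 2 / (4 * ν)) / r ^ (m + 1) := ⟨_, rfl⟩
      have hd := decay (f := X (m + 1)) (f' := fun s => rhs β ν (fun k => X k s) (m + 1))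
        (l := ν * 4 ^ (m + 1)) (M := P) ht.1 ((gal_cont hG _).mono (Icc_subset_Icc le_rfl ht.2))
        (fun τ hτ => (hG.ode (m + 1) hn τ ⟨hτ.1.le, hτ.2.le.trans ht.2⟩).hasDerivAt
          (Icc_mem_nhds hτ.1 (hτ.2.trans_le ht.2))) (fun τ hτ => ?_)
      · have h1 : X (m + 1) 0 ≤ P := by
          rw [hG.init _ hn, hP, le_div_iff₀ (by positivity), mul_comm]
          have h2 : r ^ (m + 1) * x (m + 1) ≤ K := by
            have h3 := hK (m + 1)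
            rw [pow_mul_nat] at h3
            exact (mul_le_mul_of_nonneg_right (pow_le_pow_left₀ hr0.le hrq _) (hx _)).trans h3
          linarith
        have h2 := mul_nonpos_of_nonpos_of_nonneg (sub_nonpos.2 h1)
          (Real.exp_pos (-(ν * 4 ^ (m + 1) * (t - 0)))).le
        have h3 : X (m + 1) t ≤ P := by linarith
        rw [hP, le_div_iff₀ (by positivity), mul_comm] at h3
        linarith
      · have hτ' : τ ∈ Icc 0 T := ⟨hτ.1.le, hτ.2.le.trans ht.2⟩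
        have h1 := rhs_le (β := β) (ν := ν) (x := fun k => X k τ) (fun k => hX0 τ hτ' k) m
        have h2 : B ^ m * X m τ ^ 2 ≤ ν * 4 ^ (m + 1) * P := by
          calc B ^ m * X m τ ^ 2 ≤ B ^ m * S ^ 2 :=
                mul_le_mul_of_nonneg_left (pow_le_pow_left₀ (hX0 τ hτ' m) (hle τ hτ' m) 2)
                  (by positivity)
            _ = (r * B) ^ m * (S ^ 2 / r ^ m) := by
                rw [mul_pow]
                field_simp
            _ ≤ 4 ^ m * (S ^ 2 / r ^ m) :=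
                mul_le_mul_of_nonneg_right (pow_le_pow_left₀ (by positivity) hrB m) (by positivity)
            _ = ν * 4 ^ (m + 1) * ((r * S ^ 2 / (4 * ν)) / r ^ (m + 1)) := by
                field_simp
                ring
            _ ≤ ν * 4 ^ (m + 1) * P := by
                apply mul_le_mul_of_nonneg_left _ (by positivity)
                rw [hP]
                apply div_le_div_of_nonneg_right _ (by positivity)
                linarith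
        rw [← hB'] at h1
        linarith
  · rw [hG.zero n (by omega) t, mul_zero]
    linarith

set_option maxHeartbeats 1000000 in
/-- The bound from an invariant region. -/
theorem crit_core (hB : StmB) {β ν s K S B : ℝ} (hν : 0 < ν) (hs : 0 < s)
    (hS : S = √(K ^ 2 / (1 - ((2 : ℝ) ^ s)⁻¹ ^ 2))) (hB' : B = 2 ^ β)
    {ρ r g δ νm a₁ a₂ b₂ c d lam : ℝ} (hR : Reg (64 / B ^ 2 / ρ ^ 3) ρ a₁ a₂ b₂ c d lam νm)
    (hr : r = B * ρ / 4) (hr1 : 1 < r) (hrs : r ≤ 2 ^ s) (hδ0 : 0 < δ) (hδ1 : δ ≤ 1 / 2)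
    (hδa : a₁ * δ < a₁ - 1) (hδb : a₂ * δ < b₂) (hδd : δ < d) (hg0 : 0 < g) (hgK : g * K ≤ δ)
    (hgS : g * S ≤ δ) (hgrS : g * (r * S) ≤ δ) (hνm : νm ≤ ν / (B * ρ ^ 2 / (16 * g))) :
    ∃ C : ℝ, ∀ (T : ℝ) (N : ℕ) (x : ℕ → ℝ) (X : ℕ → ℝ → ℝ),
    0 < T → (∀ n, 0 ≤ x n) → (∀ n : ℕ, (2 : ℝ) ^ (s * n) * x n ≤ K) → Gal β ν T N x X →
      ∀ t ∈ Icc 0 T, ∀ n : ℕ, r ^ n * X n t ≤ C := by
  have hS0 : 0 ≤ S := by rw [hS]; exact Real.sqrt_nonneg _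
  have hB0 : 0 < B := by rw [hB']; exact Real.rpow_pos_of_pos two_pos _
  have hρ1 := hR.ρ1
  have hρ0 : 0 < ρ := by linarith
  have hr0 : 0 < r := by linarith
  obtain ⟨C₀, hC₀⟩ : ∃ C₀, C₀ = B * ρ ^ 2 / (16 * g) := ⟨_, rfl⟩
  have hC₀0 : 0 < C₀ := by rw [hC₀]; positivity
  rw [← hC₀] at hνm
  obtain ⟨ν₀, hν₀⟩ : ∃ ν₀, ν₀ = ν / C₀ := ⟨_, rfl⟩
  rw [← hν₀] at hνm
  have hν₀0 : 0 < ν₀ := by rw [hν₀]; positivity
  -- the number of shells
  obtain ⟨N₀, hN₀⟩ : ∃ N₀ : ℕ, ∀ N ≥ N₀, 1 < lam * (ρ ^ N * ν₀) := by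
    have hl := hR.l0
    have h1 : Tendsto (fun n : ℕ => lam * (ρ ^ n * ν₀)) atTop atTop :=
      ((tendsto_pow_atTop_atTop_of_one_lt hρ1).atTop_mul_const hν₀0).const_mul_atTop hl
    obtain ⟨N₀, h2⟩ := eventually_atTop.1 (h1.eventually_gt_atTop 1)
    exact ⟨N₀, h2⟩
  refine ⟨1 / g + r ^ N₀ * S, ?_⟩
  intro T N x X hT hx hK hG
  have hle : ∀ t ∈ Icc 0 T, ∀ n, X n t ≤ S := fun t ht n => by
    rw [hS]
    exact le_energy hB hν hT hs hx hK hG ht n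
  have hX0 : ∀ t ∈ Icc 0 T, ∀ n, 0 ≤ X n t := fun t ht => (hB β ν T N x X hν hT hx hG t ht).1
  intro t ht n
  by_cases hNN : N₀ ≤ N
  · -- the invariant region
    have key := invariant hR (T := T) (N := N) (δ := δ) hC₀0 hν₀0 hνm
      (fun n t => g * r ^ n * X n t)
      (fun t ht n => mul_nonneg (by positivity) (hX0 t ht n))
      (fun n hn t => by rw [hG.zero n hn t, mul_zero])
      (continuousOn_const.mul (gal_cont hG 0)) (fun n hn t ht => ?_) (by linarith) hδa hδb hδd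
      hδ0.le (fun t ht => ⟨?_, ?_⟩) (fun n => ?_) hT.le (hN₀ N hNN) n t ht
    · have h1 : r ^ n * X n t ≤ 1 / g := by
        rw [le_div_iff₀ hg0]
        linarith
      have h2 : 0 ≤ r ^ N₀ * S := by positivity
      linarith
    · -- the equation
      have h1 := (hG.ode (n + 1) hn t ht).const_mul (g * r ^ (n + 1))
      have h2 : g * r ^ (n + 1) * rhs β ν (fun k => X k t) (n + 1) =
          C₀ * (4 / ρ) ^ (n + 1) * ((g * r ^ n * X n t) ^ 2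
          - 64 / B ^ 2 / ρ ^ 3 * ((g * r ^ (n + 1) * X (n + 1) t) * (g * r ^ (n + 2) * X (n + 2) t))
          - ρ ^ (n + 1) * ν₀ * (g * r ^ (n + 1) * X (n + 1) t)) := by
        show g * r ^ (n + 1) * ((2 : ℝ) ^ (β * n) * X n t ^ 2
          - (2 : ℝ) ^ (β * (n + 1)) * (X (n + 1) t * X (n + 2) t)
          - ν * 4 ^ (n + 1) * X (n + 1) t) = _
        have e1 : (2 : ℝ) ^ (β * ((n : ℝ) + 1)) = B ^ (n + 1) := by
          have := pow_mul_nat β (n + 1)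
          rw [Nat.cast_add, Nat.cast_one] at this
          rw [this, hB']
        rw [e1, pow_mul_nat, ← hB', hν₀, hC₀, hr]
        simp only [div_pow, mul_pow]
        have hBn : B ^ n ≠ 0 := by positivity
        have hρn : ρ ^ n ≠ 0 := by positivity
        field_simp
        ring
      rw [h2] at h1
      exact h1
    · show g * r ^ 0 * X 0 t ≤ δ
      rw [pow_zero, mul_one]
      exact (mul_le_mul_of_nonneg_left (hle t ht 0) hg0.le).trans hgS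
    · show g * r ^ 1 * X 1 t ≤ δ
      rw [pow_one, mul_assoc]
      exact (mul_le_mul_of_nonneg_left (mul_le_mul_of_nonneg_left (hle t ht 1) hr0.le)
        hg0.le).trans hgrS
    · show g * r ^ n * X n 0 ≤ δ
      by_cases hn : n ≤ N
      · rw [hG.init n hn, mul_assoc]
        have h3 := hK n
        rw [pow_mul_nat] at h3
        have h4 := (mul_le_mul_of_nonneg_right (pow_le_pow_left₀ hr0.le hrs n) (hx n)).trans h3
        exact (mul_le_mul_of_nonneg_left h4 hg0.le).trans hgK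
      · rw [hG.zero n (by omega) 0, mul_zero]
        exact hδ0.le
  · -- few shells
    have h0 : 0 ≤ 1 / g := by positivity
    by_cases hn : n ≤ N
    · have h1 : r ^ n ≤ r ^ N₀ := pow_le_pow_right₀ hr1.le (by omega)
      have h2 : r ^ n * X n t ≤ r ^ N₀ * S := mul_le_mul h1 (hle t ht n) (hX0 t ht n) (by positivity)
      linarith
    · rw [hG.zero n (by omega) t, mul_zero]
      positivity

/-- The exponent. -/
lemma expo {β s B ρ r : ℝ} (hB' : B = 2 ^ β) (hr : r = B * ρ / 4) (hr1 : 1 < r)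
    (hrs : r ≤ 2 ^ s) (hρ1 : 1 < ρ) :
    ∃ s' : ℝ, 0 < s' ∧ β - 2 < s' ∧ s' ≤ s ∧ (2 : ℝ) ^ s' = r := by
  have hB0 : 0 < B := by rw [hB']; exact Real.rpow_pos_of_pos two_pos _
  have hr0 : 0 < r := by linarith
  have hrB : B / 4 < r := by
    rw [hr]
    have : B * 1 < B * ρ := mul_lt_mul_of_pos_left hρ1 hB0
    linarith
  obtain ⟨s', hs'⟩ : ∃ s', s' = Real.logb 2 r := ⟨_, rfl⟩
  have hrs' : (2 : ℝ) ^ s' = r := by
    rw [hs']
    exact Real.rpow_logb two_pos (by norm_num) hr0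
  refine ⟨s', ?_, ?_, ?_, hrs'⟩
  · rw [hs']
    exact Real.logb_pos (by norm_num) hr1
  · rw [← Real.rpow_lt_rpow_left_iff (x := (2 : ℝ)) (by norm_num), hrs', Real.rpow_sub two_pos,
      ← hB']
    norm_num
    exact hrB
  · rw [← Real.rpow_le_rpow_left_iff (x := (2 : ℝ)) (by norm_num), hrs']
    exact hrs

/-- The case `2 ≤ β < 3`. -/
theorem crit_high (hB : StmB) {β ν s K : ℝ} (hβ2 : 2 ≤ β) (hβ : β < 3) (hν : 0 < ν) (hs : 0 < s)
    (hs2 : β - 2 < s) (hK0 : 0 ≤ K) :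
    ∃ s' C : ℝ, 0 < s' ∧ β - 2 < s' ∧ s' ≤ s ∧ ∀ (T : ℝ) (N : ℕ) (x : ℕ → ℝ) (X : ℕ → ℝ → ℝ),
    0 < T → (∀ n, 0 ≤ x n) → (∀ n : ℕ, (2 : ℝ) ^ (s * n) * x n ≤ K) → Gal β ν T N x X →
      ∀ t ∈ Icc 0 T, ∀ n : ℕ, (2 : ℝ) ^ (s' * n) * X n t ≤ C := by
  obtain ⟨S, hS⟩ : ∃ S, S = √(K ^ 2 / (1 - ((2 : ℝ) ^ s)⁻¹ ^ 2)) := ⟨_, rfl⟩
  have hS0 : 0 ≤ S := by rw [hS]; exact Real.sqrt_nonneg _
  obtain ⟨B, hB'⟩ : ∃ B : ℝ, B = 2 ^ β := ⟨_, rfl⟩
  have hB0 : 0 < B := by rw [hB']; exact Real.rpow_pos_of_pos two_pos _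
  have hB4 : 4 ≤ B := by
    rw [hB']
    have h1 : (4 : ℝ) = 2 ^ (2 : ℝ) := by norm_num
    rw [h1]
    exact Real.rpow_le_rpow_of_exponent_le (by norm_num) hβ2
  have hB8 : B < 8 := by
    rw [hB']
    have h1 : (8 : ℝ) = 2 ^ (3 : ℝ) := by norm_num
    rw [h1]
    exact Real.rpow_lt_rpow_of_exponent_lt (by norm_num) hβ
  have hBs : B < 4 * 2 ^ s := by
    have h1 : (4 : ℝ) * 2 ^ s = 2 ^ (2 + s) := by
      rw [Real.rpow_add two_pos]
      norm_num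
    rw [h1, hB']
    exact Real.rpow_lt_rpow_of_exponent_lt (by norm_num) (by linarith)
  have hQ1 : 1 < 64 / B ^ 2 := by
    rw [lt_div_iff₀ (by positivity)]
    nlinarith
  have hQ4 : 64 / B ^ 2 ≤ 4 := by
    rw [div_le_iff₀ (by positivity)]
    nlinarith
  have hη : 0 < 4 * 2 ^ s / B - 1 := by
    rw [sub_pos, lt_div_iff₀ hB0]
    linarith
  obtain ⟨ρ, hρ1, hρ2, a₁, a₂, b₂, c, d, lam, hR⟩ := reg_exists hQ1 hQ4 hη
  have hρ0 : 0 < ρ := by linarith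
  obtain ⟨r, hr⟩ : ∃ r, r = B * ρ / 4 := ⟨_, rfl⟩
  have hr1 : 1 < r := by
    rw [hr, lt_div_iff₀ (by norm_num)]
    nlinarith
  have hr0 : 0 < r := by linarith
  have hrs : r ≤ 2 ^ s := by
    rw [hr, div_le_iff₀ (by norm_num)]
    have h1 : ρ ≤ 4 * 2 ^ s / B := by linarith
    rw [le_div_iff₀ hB0] at h1
    linarith
  -- the small number
  have ha1 : 0 < a₁ := by linarith [hR.a1]
  obtain ⟨δ, hδ⟩ : ∃ δ, δ = min (1 / 2) (min ((a₁ - 1) / (2 * a₁)) (min (b₂ / (2 * a₂)) (d / 2))) :=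
    ⟨_, rfl⟩
  have hδ1 : δ ≤ 1 / 2 := by rw [hδ]; exact min_le_left _ _
  have hδ2 : δ ≤ (a₁ - 1) / (2 * a₁) := by
    rw [hδ]; exact (min_le_right _ _).trans (min_le_left _ _)
  have hδ3 : δ ≤ b₂ / (2 * a₂) := by
    rw [hδ]; exact (min_le_right _ _).trans ((min_le_right _ _).trans (min_le_left _ _))
  have hδ4 : δ ≤ d / 2 := by
    rw [hδ]; exact (min_le_right _ _).trans ((min_le_right _ _).trans (min_le_right _ _))
  have hδ0 : 0 < δ := by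
    rw [hδ]
    have h1 := hR.a1
    have h2 := hR.a2
    have h3 := hR.b2
    have h4 := hR.d0
    refine lt_min (by norm_num) (lt_min (div_pos (by linarith) (by linarith))
      (lt_min (by positivity) (by positivity)))
  have hδa : a₁ * δ < a₁ - 1 := by
    rw [le_div_iff₀ (by positivity)] at hδ2
    have := hR.a1
    linarith
  have hδb : a₂ * δ < b₂ := by
    have h2 := hR.a2
    rw [le_div_iff₀ (by positivity)] at hδ3
    have := hR.b2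
    linarith
  have hδd : δ < d := by linarith [hR.d0]
  obtain ⟨g, hg⟩ : ∃ g, g = δ / (1 + K + S + r * S) := ⟨_, rfl⟩
  have hden : 0 < 1 + K + S + r * S := by positivity
  have hg0 : 0 < g := by rw [hg]; positivity
  have hrS0 : 0 ≤ r * S := by positivity
  have hgK : g * K ≤ δ := by
    rw [hg, div_mul_eq_mul_div, div_le_iff₀ hden]
    nlinarith
  have hgS : g * S ≤ δ := by
    rw [hg, div_mul_eq_mul_div, div_le_iff₀ hden]
    nlinarith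
  have hgrS : g * (r * S) ≤ δ := by
    rw [hg, div_mul_eq_mul_div, div_le_iff₀ hden]
    nlinarith
  obtain ⟨C, hC⟩ := crit_core hB hν hs hS hB' hR hr hr1 hrs hδ0 hδ1 hδa hδb hδd hg0 hgK hgS hgrS
    (by positivity)
  obtain ⟨s', h1, h2, h3, h4⟩ := expo hB' hr hr1 hrs hρ1
  refine ⟨s', C, h1, h2, h3, fun T N x X hT hx hK hG t ht n => ?_⟩
  rw [pow_mul_nat, h4]
  exact hC T N x X hT hx hK hG t ht n

/-- The case `β = 3`. -/
theorem crit_three (hB : StmB) {ν s K : ℝ} (hν : 0 < ν) (hs2 : 1 < s) (hK0 : 0 ≤ K) :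
    ∃ s' C : ℝ, 0 < s' ∧ (3 : ℝ) - 2 < s' ∧ s' ≤ s ∧
    ∀ (T : ℝ) (N : ℕ) (x : ℕ → ℝ) (X : ℕ → ℝ → ℝ),
    0 < T → (∀ n, 0 ≤ x n) → (∀ n : ℕ, (2 : ℝ) ^ (s * n) * x n ≤ K) → Gal 3 ν T N x X →
      ∀ t ∈ Icc 0 T, ∀ n : ℕ, (2 : ℝ) ^ (s' * n) * X n t ≤ C := by
  have hs : 0 < s := by linarith
  obtain ⟨S, hS⟩ : ∃ S, S = √(K ^ 2 / (1 - ((2 : ℝ) ^ s)⁻¹ ^ 2)) := ⟨_, rfl⟩
  have hS0 : 0 ≤ S := by rw [hS]; exact Real.sqrt_nonneg _
  obtain ⟨B, hB'⟩ : ∃ B : ℝ, B = 2 ^ (3 : ℝ) := ⟨_, rfl⟩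
  have hB8 : B = 8 := by rw [hB']; norm_num
  have hBs : (2 : ℝ) < 2 ^ s := by
    have h1 : (2 : ℝ) ^ (1 : ℝ) < 2 ^ s := Real.rpow_lt_rpow_of_exponent_lt (by norm_num) hs2
    rwa [Real.rpow_one] at h1
  obtain ⟨δ, hδ⟩ : ∃ δ : ℝ, δ = 1 / 10 := ⟨_, rfl⟩
  have hδ0 : 0 < δ := by rw [hδ]; norm_num
  obtain ⟨g, hg⟩ : ∃ g, g = δ / (1 + K + S + 4 * S) := ⟨_, rfl⟩
  have hden : 0 < 1 + K + S + 4 * S := by positivity
  have hg0 : 0 < g := by rw [hg]; positivity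
  have hgK : g * K ≤ δ := by
    rw [hg, div_mul_eq_mul_div, div_le_iff₀ hden]
    nlinarith
  have hgS : g * S ≤ δ := by
    rw [hg, div_mul_eq_mul_div, div_le_iff₀ hden]
    nlinarith
  have hg4S : g * (4 * S) ≤ δ := by
    rw [hg, div_mul_eq_mul_div, div_le_iff₀ hden]
    nlinarith
  obtain ⟨νm, hνm⟩ : ∃ νm, νm = ν / (2 / g) := ⟨_, rfl⟩
  have hνm0 : 0 < νm := by rw [hνm]; positivity
  have hη : (0 : ℝ) < min (1 : ℝ) ((2 : ℝ) ^ s / 2 - 1) := lt_min one_pos (by linarith)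
  obtain ⟨ρ, hρ1, hρ2, hR⟩ := reg_three hνm0 hη
  have hρ0 : 0 < ρ := by linarith
  have hρ3 : ρ ≤ 2 := by linarith [min_le_left (1 : ℝ) (2 ^ s / 2 - 1)]
  have hρ4 : ρ ≤ 2 ^ s / 2 := by linarith [min_le_right (1 : ℝ) (2 ^ s / 2 - 1)]
  obtain ⟨r, hr⟩ : ∃ r, r = B * ρ / 4 := ⟨_, rfl⟩
  have hr' : r = 2 * ρ := by rw [hr, hB8]; ring
  have hr1 : 1 < r := by rw [hr']; linarith
  have hrs : r ≤ 2 ^ s := by rw [hr']; linarith
  have hr4 : r ≤ 4 := by rw [hr']; linarith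
  have hgrS : g * (r * S) ≤ δ := by
    have h1 : g * (r * S) ≤ g * (4 * S) :=
      mul_le_mul_of_nonneg_left (mul_le_mul_of_nonneg_right hr4 hS0) hg0.le
    linarith
  have hR' : Reg (64 / B ^ 2 / ρ ^ 3) ρ (177 / 100) (53 / 50) (7 / 20) (63 / 100) (37 / 100)
      (18 / 25) νm := by
    have h1 : 64 / B ^ 2 = 1 := by rw [hB8]; norm_num
    rw [h1]
    exact hR
  have hνm' : νm ≤ ν / (B * ρ ^ 2 / (16 * g)) := by
    rw [hνm, hB8]
    apply div_le_div_of_nonneg_left hν.le (by positivity)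
    rw [div_le_div_iff₀ (by positivity) hg0]
    have h1 : ρ ^ 2 ≤ 2 ^ 2 := pow_le_pow_left₀ hρ0.le hρ3 2
    nlinarith
  obtain ⟨C, hC⟩ := crit_core hB hν hs hS hB' hR' hr hr1 hrs hδ0 (by rw [hδ]; norm_num)
    (by rw [hδ]; norm_num) (by rw [hδ]; norm_num) (by rw [hδ]; norm_num) hg0 hgK hgS hgrS hνm'
  obtain ⟨s', h1, h2, h3, h4⟩ := expo hB' hr hr1 hrs hρ1
  refine ⟨s', C, h1, h2, h3, fun T N x X hT hx hK hG t ht n => ?_⟩
  rw [pow_mul_nat, h4]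
  exact hC T N x X hT hx hK hG t ht n

theorem stmC (hB : StmB) : StmC := by
  intro β ν s K hβ hν hs hs2 hK
  rcases lt_or_ge β 2 with h | h
  · exact crit_low hB h hν hs hK
  · rcases hβ.lt_or_eq with h' | h'
    · exact crit_high hB h h' hν hs hs2 hK
    · subst h'
      exact crit_three hB hν (by linarith) hK

end Run7.h969.Dy
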