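import Pool.Agent.Run7.h969.Dy.Defs

/-!
The dyadic model: an invariant region (helper969).
-/

set_option autoImplicit false

open Set Filter Topology

namespace Run7.h969.Dy

/-- Finitely many functions which are positive at the time `0` stay positive, if the derivative of
each is positive at the times at which it vanishes and the others are nonnegative. -/
theorem barrier {ι : Type*} [Finite ι] {T : ℝ} (G : ι → ℝ → ℝ)
    (hc : ∀ i, ContinuousOn (G i) (Icc 0 T)) (h0 : ∀ i, 0 < G i 0)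
    (hd : ∀ i, ∀ t ∈ Ioc 0 T, (∀ j, 0 ≤ G j t) → G i t = 0 →
      ∃ g', 0 < g' ∧ HasDerivWithinAt (G i) g' (Icc 0 T) t) :
    ∀ i, ∀ t ∈ Icc 0 T, 0 < G i t := by
  by_contra hcon
  push Not at hcon
  obtain ⟨i₀, t₀, ht₀, hi₀⟩ := hcon
  -- the set of bad times
  obtain ⟨B, hB⟩ : ∃ B : Set ℝ, B = {t | t ∈ Icc 0 T ∧ ∃ i, G i t ≤ 0} := ⟨_, rfl⟩
  have hBc : IsClosed B := by
    have h1 : B = ⋃ i, {t | t ∈ Icc 0 T ∧ G i t ≤ 0} := by
      rw [hB]
      ext t
      simp only [mem_ofPred_eq, mem_iUnion]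
      constructor
      · rintro ⟨h1, i, h2⟩
        exact ⟨i, h1, h2⟩
      · rintro ⟨i, h1, h2⟩
        exact ⟨h1, i, h2⟩
    rw [h1]
    apply isClosed_iUnion_of_finite
    intro i
    exact (hc i).preimage_isClosed_of_isClosed isClosed_Icc isClosed_Iic
  have hBne : B.Nonempty := ⟨t₀, by rw [hB]; exact ⟨ht₀, i₀, hi₀⟩⟩
  have hBb : BddBelow B := ⟨0, fun t ht => by rw [hB] at ht; exact ht.1.1⟩
  obtain ⟨s, hs⟩ : ∃ s, s = sInf B := ⟨_, rfl⟩
  have hsB : s ∈ B := by rw [hs]; exact hBc.csInf_mem hBne hBb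
  have hlt : ∀ t ∈ Icc 0 T, t < s → ∀ i, 0 < G i t := by
    intro t ht hts i
    by_contra h
    have h1 : t ∈ B := by rw [hB]; exact ⟨ht, i, not_lt.1 h⟩
    have h2 := csInf_le hBb h1
    rw [← hs] at h2
    linarith
  rw [hB] at hsB
  obtain ⟨hsI, i, hi⟩ := hsB
  have hs0 : 0 < s := by
    rcases hsI.1.lt_or_eq with h | h
    · exact h
    · rw [← h] at hi
      exact absurd (h0 i) (not_lt.2 hi)
  have hnn : ∀ j, 0 ≤ G j s := by
    intro j
    have h1 : Tendsto (G j) (𝓝[Ico 0 s] s) (𝓝 (G j s)) :=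
      ((hc j) s hsI).mono_left (nhdsWithin_mono _ fun t ht => ⟨ht.1, ht.2.le.trans hsI.2⟩)
    have h2 : (𝓝[Ico 0 s] s).NeBot := by
      rw [nhdsWithin_Ico_eq_nhdsLT hs0]
      infer_instance
    refine ge_of_tendsto h1 ?_
    filter_upwards [self_mem_nhdsWithin] with t ht
    exact (hlt t ⟨ht.1, ht.2.le.trans hsI.2⟩ ht.2 j).le
  have hi0 : G i s = 0 := le_antisymm hi (hnn i)
  obtain ⟨g', hg', hder⟩ := hd i s ⟨hs0, hsI.2⟩ hnn hi0
  have h1 : HasDerivWithinAt (G i) g' (Ico 0 s) s :=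
    hder.mono fun t ht => ⟨ht.1, ht.2.le.trans hsI.2⟩
  rw [hasDerivWithinAt_iff_tendsto_slope' (fun h => lt_irrefl _ h.2)] at h1
  have h2 : (𝓝[Ico 0 s] s).NeBot := by
    rw [nhdsWithin_Ico_eq_nhdsLT hs0]
    infer_instance
  have h3 : g' ≤ 0 := by
    refine le_of_tendsto h1 ?_
    filter_upwards [self_mem_nhdsWithin] with t ht
    rw [slope_def_field, hi0, sub_zero]
    have h4 := hlt t ⟨ht.1, ht.2.le.trans hsI.2⟩ ht.2 i
    have h5 : 0 < s - t := by linarith [ht.2]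
    exact div_nonpos_of_nonneg_of_nonpos h4.le (by linarith)
  linarith

/-- The relations between two neighbouring shells. -/
def PP (κ a₁ a₂ b₂ c d lam x y ν : ℝ) : Prop :=
  a₁ * x - (a₁ - 1) ≤ κ * y + lam * ν ∧ a₂ * x - b₂ ≤ κ * y + lam * ν ∧ y ≤ c * x + d

/-- The parameters of an invariant region, for the shells with the relative viscosity `ν ≥ νm`. -/
structure Reg (κ ρ a₁ a₂ b₂ c d lam νm : ℝ) : Prop where
  κ0 : 0 < κ
  ρ1 : 1 < ρ
  a1 : 1 < a₁
  a2 : 0 < a₂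
  b2 : 0 < b₂
  ab2 : a₂ - b₂ ≤ 1
  c0 : 0 < c
  d0 : 0 < d
  l0 : 0 < lam
  l1 : lam < 1
  low1 : ∀ w x y z ν : ℝ, 0 < ν → νm ≤ ν → 0 ≤ w → w ≤ 1 → 0 ≤ x → x ≤ 1 → 0 ≤ y → y ≤ 1 → 0 ≤ z →
    z ≤ 1 → PP κ a₁ a₂ b₂ c d lam w x (ν / ρ) → PP κ a₁ a₂ b₂ c d lam x y ν →
    PP κ a₁ a₂ b₂ c d lam y z (ρ * ν) → κ * y + lam * ν = a₁ * x - (a₁ - 1) →
      0 < κ * (4 / ρ) * (x ^ 2 - κ * (y * z) - ρ * ν * y) - a₁ * (w ^ 2 - κ * (x * y) - ν * x)
  low2 : ∀ w x y z ν : ℝ, 0 < ν → νm ≤ ν → 0 ≤ w → w ≤ 1 → 0 ≤ x → x ≤ 1 → 0 ≤ y → y ≤ 1 → 0 ≤ z →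
    z ≤ 1 → PP κ a₁ a₂ b₂ c d lam w x (ν / ρ) → PP κ a₁ a₂ b₂ c d lam x y ν →
    PP κ a₁ a₂ b₂ c d lam y z (ρ * ν) → κ * y + lam * ν = a₂ * x - b₂ →
      0 < κ * (4 / ρ) * (x ^ 2 - κ * (y * z) - ρ * ν * y) - a₂ * (w ^ 2 - κ * (x * y) - ν * x)
  upp : ∀ w x y z ν : ℝ, 0 < ν → νm ≤ ν → 0 ≤ w → w ≤ 1 → 0 ≤ x → x ≤ 1 → 0 ≤ y → y ≤ 1 → 0 ≤ z →
    z ≤ 1 → PP κ a₁ a₂ b₂ c d lam w x (ν / ρ) → PP κ a₁ a₂ b₂ c d lam x y ν →
    PP κ a₁ a₂ b₂ c d lam y z (ρ * ν) → y = c * x + d →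
      0 < c * (w ^ 2 - κ * (x * y) - ν * x) - (4 / ρ) * (x ^ 2 - κ * (y * z) - ρ * ν * y)

/-- The four functions. -/
noncomputable def GG (κ ρ a₁ a₂ b₂ c d lam ν₀ : ℝ) (W : ℕ → ℝ → ℝ) (j : Fin 4) (n : ℕ) (t : ℝ) :
    ℝ :=
  ![1 - W n t, κ * W (n + 1) t + lam * (ρ ^ n * ν₀) - (a₁ * W n t - (a₁ - 1)),
    κ * W (n + 1) t + lam * (ρ ^ n * ν₀) - (a₂ * W n t - b₂), c * W n t + d - W (n + 1) t] j

set_option maxHeartbeats 1000000 in
theorem invariant {κ ρ a₁ a₂ b₂ c d lam νm : ℝ} (hR : Reg κ ρ a₁ a₂ b₂ c d lam νm)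
    {T C₀ ν₀ δ : ℝ} {N : ℕ} (hC₀ : 0 < C₀) (hν₀ : 0 < ν₀) (hνm : νm ≤ ν₀) (W : ℕ → ℝ → ℝ)
    (hpos : ∀ t ∈ Icc 0 T, ∀ n, 0 ≤ W n t) (hz : ∀ n, N < n → ∀ t, W n t = 0)
    (hcont : ContinuousOn (W 0) (Icc 0 T))
    (hode : ∀ n, n + 1 ≤ N → ∀ t ∈ Icc 0 T, HasDerivWithinAt (W (n + 1))
      (C₀ * (4 / ρ) ^ (n + 1) * (W n t ^ 2 - κ * (W (n + 1) t * W (n + 2) t)
        - ρ ^ (n + 1) * ν₀ * W (n + 1) t)) (Icc 0 T) t)
    (hδ1 : δ < 1) (hδa : a₁ * δ < a₁ - 1) (hδb : a₂ * δ < b₂) (hδd : δ < d) (hδ0 : 0 ≤ δ)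
    (hsmall : ∀ t ∈ Icc 0 T, W 0 t ≤ δ ∧ W 1 t ≤ δ) (hinit : ∀ n, W n 0 ≤ δ)
    (hT : 0 ≤ T) (hN : 1 < lam * (ρ ^ N * ν₀)) :
    ∀ n, ∀ t ∈ Icc 0 T, W n t ≤ 1 := by
  have hρ : 0 < ρ := by linarith [hR.ρ1]
  have ha1 : 0 < a₁ := by linarith [hR.a1]
  have hWc : ∀ n, ContinuousOn (W n) (Icc 0 T) := by
    intro n
    rcases Nat.eq_zero_or_pos n with h | h
    · rw [h]; exact hcont
    · obtain ⟨m, rfl⟩ : ∃ m, n = m + 1 := ⟨n - 1, by omega⟩
      by_cases hm : m + 1 ≤ N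
      · exact fun t ht => (hode m hm t ht).continuousWithinAt
      · have h1 : W (m + 1) = fun _ => 0 := funext fun t => hz _ (by omega) t
        rw [h1]
        exact continuousOn_const
  have hνn : ∀ n, 0 < lam * (ρ ^ n * ν₀) := fun n => mul_pos hR.l0 (by positivity)
  have key := barrier (ι := Fin 4 × Fin (N + 1)) (T := T)
    (fun i t => GG κ ρ a₁ a₂ b₂ c d lam ν₀ W i.1 i.2 t) ?_ ?_ ?_
  · intro n t ht
    by_cases hn : n ≤ N
    · have h1 := key (0, ⟨n, by omega⟩) t ht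
      simp only [GG, Matrix.cons_val_zero] at h1
      linarith
    · rw [hz n (by omega) t]
      exact zero_le_one
  · -- continuity
    rintro ⟨j, n⟩
    have h1 := hWc n
    have h2 := hWc (n + 1)
    fin_cases j
    · exact continuousOn_const.sub h1
    · exact ((h2.const_smul κ).add continuousOn_const).sub ((h1.const_smul a₁).sub
        continuousOn_const)
    · exact ((h2.const_smul κ).add continuousOn_const).sub ((h1.const_smul a₂).sub
        continuousOn_const)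
    · exact ((h1.const_smul c).add continuousOn_const).sub h2
  · -- the time zero
    rintro ⟨j, n⟩
    have h1 := hinit n
    have h2 := hinit (n + 1)
    have h3 := hpos 0 ⟨le_rfl, hT⟩ n
    have h4 := hpos 0 ⟨le_rfl, hT⟩ (n + 1)
    have h5 := hνn n
    have h6 : 0 ≤ κ * W (n + 1) 0 := mul_nonneg hR.κ0.le h4
    fin_cases j
    · show 0 < 1 - W n 0
      linarith
    · show 0 < κ * W (n + 1) 0 + lam * (ρ ^ (n : ℕ) * ν₀) - (a₁ * W n 0 - (a₁ - 1))
      have h7 : a₁ * W n 0 ≤ a₁ * δ := mul_le_mul_of_nonneg_left h1 ha1.le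
      linarith
    · show 0 < κ * W (n + 1) 0 + lam * (ρ ^ (n : ℕ) * ν₀) - (a₂ * W n 0 - b₂)
      have h7 : a₂ * W n 0 ≤ a₂ * δ := mul_le_mul_of_nonneg_left h1 hR.a2.le
      linarith
    · show 0 < c * W n 0 + d - W (n + 1) 0
      have h7 : 0 ≤ c * W n 0 := mul_nonneg hR.c0.le h3
      linarith
  · -- the contact
    rintro ⟨j, ⟨n, hn⟩⟩ t ht hall hcontact
    have htI : t ∈ Icc 0 T := ⟨ht.1.le, ht.2⟩
    have hW0 := hpos t htI
    have hW1 : ∀ m, W m t ≤ 1 := by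
      intro m
      by_cases hm : m ≤ N
      · have h1 := hall (0, ⟨m, by omega⟩)
        simp only [GG, Matrix.cons_val_zero] at h1
        linarith
      · rw [hz m (by omega) t]
        exact zero_le_one
    have hPP : ∀ m, PP κ a₁ a₂ b₂ c d lam (W m t) (W (m + 1) t) (ρ ^ m * ν₀) := by
      intro m
      by_cases hm : m ≤ N
      · have h1 := hall (1, ⟨m, by omega⟩)
        have h2 := hall (2, ⟨m, by omega⟩)
        have h3 := hall (3, ⟨m, by omega⟩)
        have h1' : 0 ≤ κ * W (m + 1) t + lam * (ρ ^ m * ν₀) - (a₁ * W m t - (a₁ - 1)) := h1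
        have h2' : 0 ≤ κ * W (m + 1) t + lam * (ρ ^ m * ν₀) - (a₂ * W m t - b₂) := h2
        have h3' : 0 ≤ c * W m t + d - W (m + 1) t := h3
        exact ⟨by linarith, by linarith, by linarith⟩
      · have h1 := hνn m
        unfold PP
        rw [hz m (by omega) t, hz (m + 1) (by omega) t]
        exact ⟨by linarith [hR.a1], by linarith [hR.b2], by linarith [hR.d0]⟩
    obtain ⟨hsm0, hsm1⟩ := hsmall t htI
    rcases Nat.eq_zero_or_pos n with h0 | hpos'
    · -- the first shell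
      exfalso
      subst h0
      have e0 := hW0 0
      have e1 := hW0 1
      have e2 := hνn 0
      have e3 : 0 ≤ κ * W 1 t := mul_nonneg hR.κ0.le e1
      fin_cases j
      · have h1 : 1 - W 0 t = 0 := hcontact
        linarith
      · have h1 : κ * W 1 t + lam * (ρ ^ 0 * ν₀) - (a₁ * W 0 t - (a₁ - 1)) = 0 := hcontact
        have h7 : a₁ * W 0 t ≤ a₁ * δ := mul_le_mul_of_nonneg_left hsm0 ha1.le
        linarith
      · have h1 : κ * W 1 t + lam * (ρ ^ 0 * ν₀) - (a₂ * W 0 t - b₂) = 0 := hcontact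
        have h7 : a₂ * W 0 t ≤ a₂ * δ := mul_le_mul_of_nonneg_left hsm0 hR.a2.le
        linarith
      · have h1 : c * W 0 t + d - W 1 t = 0 := hcontact
        have h7 : 0 ≤ c * W 0 t := mul_nonneg hR.c0.le e0
        linarith
    · obtain ⟨m, rfl⟩ : ∃ m, n = m + 1 := ⟨n - 1, by omega⟩
      have hmN : m + 1 ≤ N := by omega
      have hd1 := hode m hmN t htI
      obtain ⟨C₁, hC₁⟩ : ∃ C₁, C₁ = C₀ * (4 / ρ) ^ (m + 1) := ⟨_, rfl⟩
      have hC₁0 : 0 < C₁ := by rw [hC₁]; positivity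
      obtain ⟨ν, hν⟩ : ∃ ν, ν = ρ ^ (m + 1) * ν₀ := ⟨_, rfl⟩
      have hν0 : 0 < ν := by rw [hν]; positivity
      have hνν : νm ≤ ν := by
        have h1 : 1 * ν₀ ≤ ρ ^ (m + 1) * ν₀ :=
          mul_le_mul_of_nonneg_right (one_le_pow₀ hR.ρ1.le) hν₀.le
        rw [hν]
        linarith
      have hP0 : PP κ a₁ a₂ b₂ c d lam (W m t) (W (m + 1) t) (ν / ρ) := by
        have h1 : ν / ρ = ρ ^ m * ν₀ := by
          rw [hν, pow_succ]
          field_simp
        rw [h1]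
        exact hPP m
      have hP1 : PP κ a₁ a₂ b₂ c d lam (W (m + 1) t) (W (m + 2) t) ν := by
        rw [hν]
        exact hPP (m + 1)
      have hP2 : PP κ a₁ a₂ b₂ c d lam (W (m + 2) t) (W (m + 3) t) (ρ * ν) := by
        have h1 : ρ * ν = ρ ^ (m + 2) * ν₀ := by
          rw [hν]
          ring
        rw [h1]
        exact hPP (m + 2)
      rw [← hC₁, ← hν] at hd1
      by_cases hj : j = 0
      · -- the bound one
        subst hj
        have h1 : 1 - W (m + 1) t = 0 := hcontact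
        have hx : W (m + 1) t = 1 := by linarith
        refine ⟨-(C₁ * (W m t ^ 2 - κ * (W (m + 1) t * W (m + 2) t) - ν * W (m + 1) t)), ?_, ?_⟩
        · have h2 := hP1.1
          rw [hx] at h2 ⊢
          have h3 : W m t ^ 2 ≤ 1 := by
            have := pow_le_pow_left₀ (hW0 m) (hW1 m) 2
            rwa [one_pow] at this
          have h4 : W m t ^ 2 - κ * (1 * W (m + 2) t) - ν * 1 < 0 := by
            have h5 : (1 - lam) * ν > 0 := mul_pos (by linarith [hR.l1]) hν0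
            linarith
          have h5 : C₁ * (W m t ^ 2 - κ * (1 * W (m + 2) t) - ν * 1) < 0 :=
            mul_neg_of_pos_of_neg hC₁0 h4
          linarith
        · exact (hd1.const_sub 1)
      · -- the other contacts: `m + 2 ≤ N`
        have hm2 : m + 2 ≤ N := by
          by_contra hlt
          have hmN' : m + 1 = N := by omega
          have h0 : W (m + 2) t = 0 := hz _ (by omega) t
          have h1 := hW1 (m + 1)
          have h2 := hW0 (m + 1)
          have h3 : 1 < lam * (ρ ^ (m + 1) * ν₀) := by rw [hmN']; exact hN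
          fin_cases j
          · exact hj rfl
          · have h4 : κ * W (m + 2) t + lam * (ρ ^ (m + 1) * ν₀)
              - (a₁ * W (m + 1) t - (a₁ - 1)) = 0 := hcontact
            rw [h0] at h4
            have h5 : a₁ * W (m + 1) t ≤ a₁ * 1 := mul_le_mul_of_nonneg_left h1 ha1.le
            linarith
          · have h4 : κ * W (m + 2) t + lam * (ρ ^ (m + 1) * ν₀)
              - (a₂ * W (m + 1) t - b₂) = 0 := hcontact
            rw [h0] at h4
            have h5 : a₂ * W (m + 1) t ≤ a₂ * 1 := mul_le_mul_of_nonneg_left h1 hR.a2.le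
            linarith [hR.ab2]
          · have h4 : c * W (m + 1) t + d - W (m + 2) t = 0 := hcontact
            rw [h0] at h4
            have h5 : 0 ≤ c * W (m + 1) t := mul_nonneg hR.c0.le h2
            linarith [hR.d0]
        have hd2 := hode (m + 1) hm2 t htI
        have e1 : C₀ * (4 / ρ) ^ (m + 1 + 1) = C₁ * (4 / ρ) := by
          rw [hC₁, pow_succ]
          ring
        have e2 : ρ ^ (m + 1 + 1) * ν₀ = ρ * ν := by
          rw [hν]
          ring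
        rw [e1, e2] at hd2
        obtain ⟨w, hw⟩ : ∃ w, w = W m t := ⟨_, rfl⟩
        obtain ⟨x, hx⟩ : ∃ x, x = W (m + 1) t := ⟨_, rfl⟩
        obtain ⟨y, hy⟩ : ∃ y, y = W (m + 2) t := ⟨_, rfl⟩
        obtain ⟨z, hz'⟩ : ∃ z, z = W (m + 3) t := ⟨_, rfl⟩
        have w0 := hW0 m
        have w1 := hW1 m
        have x0 := hW0 (m + 1)
        have x1 := hW1 (m + 1)
        have y0 := hW0 (m + 2)
        have y1 := hW1 (m + 2)
        have z0 := hW0 (m + 3)
        have z1 := hW1 (m + 3)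
        have hd2' : HasDerivWithinAt (W (m + 2)) (C₁ * (4 / ρ) * (W (m + 1) t ^ 2
            - κ * (W (m + 2) t * W (m + 3) t) - ρ * ν * W (m + 2) t)) (Icc 0 T) t := hd2
        rw [← hw, ← hx, ← hy] at hd1
        rw [← hx, ← hy, ← hz'] at hd2'
        rw [← hw] at w0 w1
        rw [← hx] at x0 x1
        rw [← hy] at y0 y1
        rw [← hz'] at z0 z1
        rw [← hw, ← hx] at hP0
        rw [← hx, ← hy] at hP1
        rw [← hy, ← hz'] at hP2
        fin_cases j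
        · exact absurd rfl hj
        · have hco : κ * W (m + 2) t + lam * (ρ ^ (m + 1) * ν₀)
            - (a₁ * W (m + 1) t - (a₁ - 1)) = 0 := hcontact
          rw [← hx, ← hy, ← hν] at hco
          have h1 := hR.low1 w x y z ν hν0 hνν w0 w1 x0 x1 y0 y1 z0 z1 hP0 hP1 hP2 (by linarith)
          refine ⟨_, ?_, ((hd2'.const_mul κ).add_const _).sub ((hd1.const_mul a₁).sub_const _)⟩
          have h2 := mul_pos hC₁0 h1
          linarith
        · have hco : κ * W (m + 2) t + lam * (ρ ^ (m + 1) * ν₀)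
            - (a₂ * W (m + 1) t - b₂) = 0 := hcontact
          rw [← hx, ← hy, ← hν] at hco
          have h1 := hR.low2 w x y z ν hν0 hνν w0 w1 x0 x1 y0 y1 z0 z1 hP0 hP1 hP2 (by linarith)
          refine ⟨_, ?_, ((hd2'.const_mul κ).add_const _).sub ((hd1.const_mul a₂).sub_const _)⟩
          have h2 := mul_pos hC₁0 h1
          linarith
        · have hco : c * W (m + 1) t + d - W (m + 2) t = 0 := hcontact
          rw [← hx, ← hy] at hco
          have h1 := hR.upp w x y z ν hν0 hνν w0 w1 x0 x1 y0 y1 z0 z1 hP0 hP1 hP2 (by linarith)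
          refine ⟨_, ?_, ((hd1.const_mul c).add_const _).sub hd2'⟩
          have h2 := mul_pos hC₁0 h1
          linarith

end Run7.h969.Dy
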