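import Mathlib

/-!
The dyadic model of the Navier-Stokes equations (Katz-Pavlovic, Friedlander-Pavlovic, Cheskidov,
Barbato-Morandin-Romito):

`X_n' = 2^(β (n-1)) X_{n-1}² - 2^(β n) X_n X_{n+1} - ν 4^n X_n`, `X_{-1} = 0`,

where `β = 5 / 2` is the scaling of the three-dimensional Navier-Stokes equations. Project: global
regularity for all `β ≤ 3` (helper969).
-/

set_option autoImplicit false

open Set

namespace Run7.h969.Dy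

/-- The right hand side of the dyadic model. -/
noncomputable def rhs (β ν : ℝ) (x : ℕ → ℝ) : ℕ → ℝ
  | 0 => -(x 0 * x 1) - ν * x 0
  | n + 1 => (2 : ℝ) ^ (β * n) * x n ^ 2 - (2 : ℝ) ^ (β * (n + 1)) * (x (n + 1) * x (n + 2))
      - ν * 4 ^ (n + 1) * x (n + 1)

/-- `X` is a solution on `[0, ∞)` with the initial value `x`. -/
structure IsDy (β ν : ℝ) (x : ℕ → ℝ) (X : ℕ → ℝ → ℝ) : Prop where
  init : ∀ n, X n 0 = x n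
  cont : ∀ n, ContinuousOn (X n) (Ici 0)
  ode : ∀ n, ∀ t : ℝ, 0 < t → HasDerivAt (X n) (rhs β ν (fun k => X k t) n) t

/-- `X` solves the equations of the shells `n ≤ N` on `[0, T]`, and `X_n = 0` for `n > N`. -/
structure Gal (β ν T : ℝ) (N : ℕ) (x : ℕ → ℝ) (X : ℕ → ℝ → ℝ) : Prop where
  init : ∀ n ≤ N, X n 0 = x n
  zero : ∀ n, N < n → ∀ t, X n t = 0
  ode : ∀ n ≤ N, ∀ t ∈ Icc 0 T,
    HasDerivWithinAt (X n) (rhs β ν (fun k => X k t) n) (Icc 0 T) t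

/-- A. The truncated system has a solution. -/
def StmA : Prop := ∀ (β ν T : ℝ) (N : ℕ) (x : ℕ → ℝ), 0 < ν → 0 < T →
  ∃ X : ℕ → ℝ → ℝ, Gal β ν T N x X

/-- B. Positivity and energy for the truncated system. -/
def StmB : Prop := ∀ (β ν T : ℝ) (N : ℕ) (x : ℕ → ℝ) (X : ℕ → ℝ → ℝ), 0 < ν → 0 < T →
  (∀ n, 0 ≤ x n) → Gal β ν T N x X → ∀ t ∈ Icc 0 T, (∀ n, 0 ≤ X n t) ∧
    ∑ n ∈ Finset.range (N + 1), X n t ^ 2
      + 2 * ν * ∫ s in (0 : ℝ)..t, ∑ n ∈ Finset.range (N + 1), 4 ^ n * X n s ^ 2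
      = ∑ n ∈ Finset.range (N + 1), x n ^ 2

/-- C. The decay with a rate better than the critical one, uniformly in the truncation. -/
def StmC : Prop := ∀ β ν s K : ℝ, β ≤ 3 → 0 < ν → 0 < s → β - 2 < s → 0 ≤ K →
  ∃ s' C : ℝ, 0 < s' ∧ β - 2 < s' ∧ s' ≤ s ∧ ∀ (T : ℝ) (N : ℕ) (x : ℕ → ℝ) (X : ℕ → ℝ → ℝ),
    0 < T → (∀ n, 0 ≤ x n) → (∀ n : ℕ, (2 : ℝ) ^ (s * n) * x n ≤ K) → Gal β ν T N x X →
      ∀ t ∈ Icc 0 T, ∀ n : ℕ, (2 : ℝ) ^ (s' * n) * X n t ≤ C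

/-- D. Higher regularity is preserved. -/
def StmD : Prop := ∀ (β ν s C r K : ℝ) (x : ℕ → ℝ) (X : ℕ → ℝ → ℝ), 0 < ν → β - 2 < s →
  IsDy β ν x X → (∀ n t, 0 ≤ t → 0 ≤ X n t) → (∀ (n : ℕ) t, 0 ≤ t → (2 : ℝ) ^ (s * n) * X n t ≤ C) →
  (∀ n : ℕ, (2 : ℝ) ^ (r * n) * x n ≤ K) →
    ∃ C' : ℝ, ∀ (n : ℕ) t, 0 ≤ t → (2 : ℝ) ^ (r * n) * X n t ≤ C'

/-- E. The limit of the truncated systems: if all the solutions of the truncated systems decay with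
a rate better than the critical one then there is a solution, and upper bounds pass to the
limit. -/
def StmE : Prop := ∀ (β ν s C : ℝ) (x : ℕ → ℝ), 0 < ν → 0 < s → β - 2 < s → (∀ n, 0 ≤ x n) →
  (∀ (T : ℝ) (N : ℕ) (X : ℕ → ℝ → ℝ), 0 < T → Gal β ν T N x X →
    ∀ t ∈ Icc 0 T, ∀ n : ℕ, (2 : ℝ) ^ (s * n) * X n t ≤ C) →
  ∃ X : ℕ → ℝ → ℝ, IsDy β ν x X ∧ (∀ n t, 0 ≤ t → 0 ≤ X n t) ∧
    ∀ (n : ℕ) (t B : ℝ), 0 ≤ t → (∀ (T : ℝ) (N : ℕ) (Y : ℕ → ℝ → ℝ), 0 < T → t ≤ T →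
      Gal β ν T N x Y → Y n t ≤ B) → X n t ≤ B

/-- N. All the solutions with nonnegative initial values are nonnegative. -/
def StmN : Prop := ∀ (β ν : ℝ) (x : ℕ → ℝ) (X : ℕ → ℝ → ℝ), 0 < ν → (∀ n, 0 ≤ x n) →
  IsDy β ν x X → ∀ n t, 0 ≤ t → 0 ≤ X n t

/-- F. A solution which decays with a rate better than the critical one is unique among all the
solutions with the same nonnegative initial values (of finite energy). -/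
def StmF : Prop := ∀ (β ν s C : ℝ) (x : ℕ → ℝ) (X Z : ℕ → ℝ → ℝ), 0 < ν → 0 < s → β - 2 < s →
  (∀ n, 0 ≤ x n) → IsDy β ν x X → (∀ (n : ℕ) t, 0 ≤ t → (2 : ℝ) ^ (s * n) * X n t ≤ C) →
  IsDy β ν x Z → ∀ n t, 0 ≤ t → Z n t = X n t

/-- G. Smoothing. -/
def StmS : Prop := ∀ (β ν s C : ℝ) (x : ℕ → ℝ) (X : ℕ → ℝ → ℝ), 0 < ν → β - 2 < s →
  IsDy β ν x X → (∀ n t, 0 ≤ t → 0 ≤ X n t) → (∀ (n : ℕ) t, 0 ≤ t → (2 : ℝ) ^ (s * n) * X n t ≤ C) →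
    ∀ τ r : ℝ, 0 < τ → ∃ C' : ℝ, ∀ (n : ℕ) t, τ ≤ t → (2 : ℝ) ^ (r * n) * X n t ≤ C'

/-- The final theorem: global regularity for `β ≤ 3`. -/
def StmDyadic : Prop := ∀ (β ν s : ℝ) (x : ℕ → ℝ), β ≤ 3 → 0 < ν → 0 < s → β - 2 < s →
  (∀ n, 0 ≤ x n) → (∃ K, ∀ n : ℕ, (2 : ℝ) ^ (s * n) * x n ≤ K) →
    ∃ X : ℕ → ℝ → ℝ, IsDy β ν x X ∧ (∀ Z, IsDy β ν x Z → ∀ n t, 0 ≤ t → Z n t = X n t) ∧
      (∀ r : ℝ, (∃ K, ∀ n : ℕ, (2 : ℝ) ^ (r * n) * x n ≤ K) →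
        ∃ K, ∀ (n : ℕ) t, 0 ≤ t → (2 : ℝ) ^ (r * n) * |X n t| ≤ K) ∧
      ∀ τ r : ℝ, 0 < τ → ∃ K, ∀ (n : ℕ) t, τ ≤ t → (2 : ℝ) ^ (r * n) * |X n t| ≤ K

/-- The assembly. -/
theorem dyadic (hC : StmC) (hD : StmD) (hE : StmE) (hF : StmF)
    (hS : StmS) : StmDyadic := by
  intro β ν s x hβ hν hs hs2 hx ⟨K, hK⟩
  have hK0 : 0 ≤ K := by
    have := hK 0
    simp only [Nat.cast_zero, mul_zero, Real.rpow_zero, one_mul] at this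
    exact (hx 0).trans this
  obtain ⟨s', C, hs'0, hs'1, hs'2, hC'⟩ := hC β ν s K hβ hν hs hs2 hK0
  obtain ⟨X, hX, hX0, hXB⟩ := hE β ν s' C x hν hs'0 hs'1 hx
    (fun T N X hT hG t ht n => hC' T N x X hT hx hK hG t ht n)
  have hXs : ∀ (n : ℕ) t, 0 ≤ t → (2 : ℝ) ^ (s' * n) * X n t ≤ C := by
    intro n t ht
    have h2 : (0 : ℝ) < 2 ^ (s' * n) := Real.rpow_pos_of_pos two_pos _
    have h1 : X n t ≤ C / 2 ^ (s' * n) := by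
      apply hXB n t _ ht
      intro T N Y hT htT hG
      rw [le_div_iff₀ h2, mul_comm]
      exact hC' T N x Y hT hx hK hG t ⟨ht, htT⟩ n
    rw [le_div_iff₀ h2, mul_comm] at h1
    exact h1
  refine ⟨X, hX, fun Z hZ => hF β ν s' C x X Z hν hs'0 hs'1 hx hX hXs hZ, ?_, ?_⟩
  · rintro r ⟨K', hK'⟩
    obtain ⟨C', hC'⟩ := hD β ν s' C r K' x X hν hs'1 hX hX0 hXs hK'
    exact ⟨C', fun n t ht => by rw [abs_of_nonneg (hX0 n t ht)]; exact hC' n t ht⟩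
  · intro τ r hτ
    obtain ⟨C', hC'⟩ := hS β ν s' C x X hν hs'1 hX hX0 hXs τ r hτ
    exact ⟨C', fun n t ht => by rw [abs_of_nonneg (hX0 n t (hτ.le.trans ht))]; exact hC' n t ht⟩

end Run7.h969.Dy
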