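import Pool.Agent.Run7.h969.Dy.Crit
import Pool.Agent.Run7.h32.Dy.B
import Pool.Agent.Run7.h32.Dy.E
import Pool.Agent.Run7.h32.Dy.F

/-!
The dyadic model: global regularity for `β ≤ 3` (helper969, helper32).
-/

set_option autoImplicit false

namespace Run7.h969.Dy

theorem final : StmDyadic :=
  dyadic (stmC Pool.Agent.Run7.h32.Dy.stmB) stmD Pool.Agent.Run7.h32.Dy.stmE
    Pool.Agent.Run7.h32.Dy.stmF stmS

end Run7.h969.Dy
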