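import Pool.Agent.Run7.h969.Dy.Region

/-!
The dyadic model: the parameters of the invariant region (helper969).
-/

set_option autoImplicit false
set_option linter.unusedVariables false

open Set Filter Topology

namespace Run7.h969.Dy

/-- The polynomial inequalities behind an invariant region. -/
structure Pol (κ a₁ a₂ b₂ c d lam : ℝ) (m : ℝ → ℝ) : Prop where
  a1 : 1 < a₁
  a2 : 0 < a₂
  b2 : 0 < b₂
  ab2 : a₂ - b₂ ≤ 1
  c0 : 0 < c
  d0 : 0 < d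
  l0 : 0 < lam
  l1 : lam < 1
  r1 : ∀ x ν q w : ℝ, 0 ≤ x → x ≤ 1 → a₂ * x - b₂ ≤ a₁ * x - (a₁ - 1) → 0 ≤ ν → 0 ≤ q →
    q + lam * ν = a₁ * x - (a₁ - 1) → 0 ≤ w → w ≤ 1 → a₁ * w ≤ κ * x + lam * ν + (a₁ - 1) →
    m ν ≤ 4 * κ * x ^ 2 - 4 * q * (c * q + κ * d) - 4 * ν * q - a₁ * w ^ 2 + a₁ * x * (q + ν)
  r2 : ∀ x ν q w : ℝ, 0 ≤ x → x ≤ 1 → a₁ * x - (a₁ - 1) ≤ a₂ * x - b₂ → 0 ≤ ν → 0 ≤ q →
    q + lam * ν = a₂ * x - b₂ → 0 ≤ w → w ≤ 1 → a₁ * w ≤ κ * x + lam * ν + (a₁ - 1) →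
    m ν ≤ 4 * κ * x ^ 2 - 4 * q * (c * q + κ * d) - 4 * ν * q - a₂ * w ^ 2 + a₂ * x * (q + ν)
  r3 : ∀ x ν w y : ℝ, 0 ≤ x → x ≤ 1 → 0 ≤ ν → y ≤ 1 → y = c * x + d → 0 ≤ w → w ≤ 1 →
    x ≤ c * w + d → ∃ H : ℝ, H ≤ 1 ∧ (H ≤ a₁ * y - (a₁ - 1) ∨ H ≤ a₂ * y - b₂) ∧
      m ν ≤ c * (w ^ 2 - κ * x * y - ν * x) - 4 * (x ^ 2 - y * H) + 4 * (1 - lam) * ν * y

lemma Pol.mono {κ a₁ a₂ b₂ c d lam : ℝ} {m m' : ℝ → ℝ} (h : Pol κ a₁ a₂ b₂ c d lam m)
    (hm : ∀ ν, m' ν ≤ m ν) :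
    Pol κ a₁ a₂ b₂ c d lam m' where
  a1 := h.a1
  a2 := h.a2
  b2 := h.b2
  ab2 := h.ab2
  c0 := h.c0
  d0 := h.d0
  l0 := h.l0
  l1 := h.l1
  r1 := fun x ν q w h1 h2 h3 h4 h5 h6 h7 h8 h9 => (hm ν).trans (h.r1 x ν q w h1 h2 h3 h4 h5 h6 h7 h8 h9)
  r2 := fun x ν q w h1 h2 h3 h4 h5 h6 h7 h8 h9 => (hm ν).trans (h.r2 x ν q w h1 h2 h3 h4 h5 h6 h7 h8 h9)
  r3 := fun x ν w y h1 h2 h3 h4 h5 h6 h7 h8 => by
    obtain ⟨H, hH1, hH2, hH3⟩ := h.r3 x ν w y h1 h2 h3 h4 h5 h6 h7 h8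
    exact ⟨H, hH1, hH2, (hm ν).trans hH3⟩

/-- The parameters are those of an invariant region if `ρ` is close to one. -/
theorem reg_of {κ ρ a₁ a₂ b₂ c d lam νm : ℝ} {m : ℝ → ℝ} (h : Pol κ a₁ a₂ b₂ c d lam m)
    (hκ : 0 < κ) (hκ4 : κ ≤ 4) (hρ : 1 < ρ) (hm : ∀ ν, νm ≤ ν → 16 * (ρ - 1) < m ν) :
    Reg κ ρ a₁ a₂ b₂ c d lam νm := by
  have hρ0 : 0 < ρ := by linarith
  have hθ : 0 ≤ 1 - 1 / ρ := by
    rw [sub_nonneg, div_le_one hρ0]
    exact hρ.le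
  have hθ1 : 1 - 1 / ρ ≤ ρ - 1 := by
    have h1 : 1 - 1 / ρ = (ρ - 1) / ρ := by field_simp
    rw [h1, div_le_iff₀ hρ0]
    nlinarith
  have hdiv : ∀ ν : ℝ, 0 < ν → ν / ρ ≤ ν := fun ν hν => div_le_self hν.le hρ.le
  -- the lower edges
  have key : ∀ a w x y z ν : ℝ, 0 < ν → νm ≤ ν → 0 ≤ x → x ≤ 1 → 0 ≤ y → 0 ≤ z →
      z ≤ c * y + d → m ν ≤ 4 * κ * x ^ 2 - 4 * (κ * y) * (c * (κ * y) + κ * d) - 4 * ν * (κ * y) - a * w ^ 2
        + a * x * (κ * y + ν) →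
      0 < κ * (4 / ρ) * (x ^ 2 - κ * (y * z) - ρ * ν * y) - a * (w ^ 2 - κ * (x * y) - ν * x) := by
    intro a w x y z ν hν hνm hx0 hx1 hy0 hz0 hz hmain
    have hm' := hm ν hνm
    have h1 : κ * (4 / ρ) * (x ^ 2 - κ * (y * z) - ρ * ν * y) =
        4 * κ * (x ^ 2 - κ * (y * z)) - 4 * κ * (1 - 1 / ρ) * (x ^ 2 - κ * (y * z))
          - 4 * κ * ν * y := by
      field_simp
      ring
    have h2 : x ^ 2 - κ * (y * z) ≤ 1 := by
      have h3 : x ^ 2 ≤ 1 := by nlinarith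
      have h4 : 0 ≤ κ * (y * z) := by positivity
      linarith
    have h3 : 4 * κ * (1 - 1 / ρ) * (x ^ 2 - κ * (y * z)) ≤ 16 * (ρ - 1) := by
      calc 4 * κ * (1 - 1 / ρ) * (x ^ 2 - κ * (y * z)) ≤ 4 * κ * (1 - 1 / ρ) * 1 :=
            mul_le_mul_of_nonneg_left h2 (by positivity)
        _ ≤ 4 * 4 * (1 - 1 / ρ) * 1 := by
            have := mul_le_mul_of_nonneg_right hκ4 hθ
            linarith
        _ ≤ 16 * (ρ - 1) := by linarith
    have h4 : κ * y * (κ * z) ≤ κ * y * (c * (κ * y) + κ * d) := by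
      apply mul_le_mul_of_nonneg_left _ (by positivity)
      have := mul_le_mul_of_nonneg_left hz hκ.le
      linarith
    rw [h1]
    nlinarith
  refine ⟨hκ, hρ, h.a1, h.a2, h.b2, h.ab2, h.c0, h.d0, h.l0, h.l1, ?_, ?_, ?_⟩
  · intro w x y z ν hν hνm w0 w1 x0 x1 y0 y1 z0 z1 P0 P1 P2 he
    apply key a₁ w x y z ν hν hνm x0 x1 y0 z0 P2.2.2
    apply h.r1 x ν (κ * y) w x0 x1 (by linarith [P1.2.1]) hν.le (by positivity) he w0 w1
    have h1 := P0.1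
    have h2 := mul_le_mul_of_nonneg_left (hdiv ν hν) h.l0.le
    linarith
  · intro w x y z ν hν hνm w0 w1 x0 x1 y0 y1 z0 z1 P0 P1 P2 he
    apply key a₂ w x y z ν hν hνm x0 x1 y0 z0 P2.2.2
    apply h.r2 x ν (κ * y) w x0 x1 (by linarith [P1.1]) hν.le (by positivity) he w0 w1
    have h1 := P0.1
    have h2 := mul_le_mul_of_nonneg_left (hdiv ν hν) h.l0.le
    linarith
  · intro w x y z ν hν hνm w0 w1 x0 x1 y0 y1 z0 z1 P0 P1 P2 he
    have hm' := hm ν hνm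
    obtain ⟨H, hH1, hH2, hmain⟩ := h.r3 x ν w y x0 x1 hν.le y1 he w0 w1 P0.2.2
    have hH : H ≤ κ * z + lam * (ρ * ν) := by
      rcases hH2 with hH2 | hH2
      · exact hH2.trans P2.1
      · exact hH2.trans P2.2.1
    have h1 : (4 / ρ) * (x ^ 2 - κ * (y * z) - ρ * ν * y) =
        4 / ρ * (x ^ 2 - y * (κ * z)) - 4 * ν * y := by
      field_simp
    have h2 : 4 / ρ * (x ^ 2 - y * (κ * z)) ≤ 4 / ρ * (x ^ 2 - y * H) + 4 * lam * ν * y := by
      have h3 : y * H ≤ y * (κ * z + lam * (ρ * ν)) := mul_le_mul_of_nonneg_left hH y0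
      have h4 : 4 / ρ * (x ^ 2 - y * H) + 4 * lam * ν * y =
          4 / ρ * (x ^ 2 - y * H + y * (lam * (ρ * ν))) := by
        field_simp
      rw [h4]
      apply mul_le_mul_of_nonneg_left _ (by positivity)
      linarith
    have h3 : 4 / ρ * (x ^ 2 - y * H) ≤ 4 * (x ^ 2 - y * H) + 16 * (ρ - 1) := by
      have h4 : 4 / ρ * (x ^ 2 - y * H) =
          4 * (x ^ 2 - y * H) + 4 * (1 - 1 / ρ) * (y * H - x ^ 2) := by
        field_simp
        ring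
      have h5 : y * H - x ^ 2 ≤ 1 := by
        have h6 : y * H ≤ 1 := by nlinarith
        nlinarith [sq_nonneg x]
      have h6 : 4 * (1 - 1 / ρ) * (y * H - x ^ 2) ≤ 4 * (1 - 1 / ρ) * 1 :=
        mul_le_mul_of_nonneg_left h5 (by positivity)
      rw [h4]
      linarith
    rw [h1]
    nlinarith

/-- The range `7 / 5 ≤ κ ≤ 4`. -/
theorem polD {k : ℝ} (hk0 : 7 / 5 ≤ k) (hk1 : k ≤ 4) :
    Pol k (11 / 4) (7 / 5) (13 / 20) (1 / 2) (12 / 25 + 1 / 20 * k) (3 / 4)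
      (fun _ => 1 / 1000) where
  a1 := by norm_num
  a2 := by norm_num
  b2 := by norm_num
  ab2 := by norm_num
  c0 := by norm_num
  d0 := by linarith
  l0 := by norm_num
  l1 := by norm_num
  r1 := by
    intro x ν q w hx hx1 hx0' hν hq he hw0 hw1 hw
    have hx0 : 22 / 27 ≤ x := by linarith
    have hq' : q = 11/4 * x - 7/4 - 3/4 * ν := by linarith
    subst hq'
    have h2 : w^2 ≤ 1 := by nlinarith
    have h3 : 1/100 ≤ 4*k*x^2 - 4*(11/4 * x - 7/4 - 3/4 * ν)*(1/2*(11/4 * x - 7/4 - 3/4 * ν)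
        + k*(12/25+1/20*k)) - 4*ν*(11/4 * x - 7/4 - 3/4 * ν) - 11/4
        + 11/4*x*((11/4 * x - 7/4 - 3/4 * ν)+ν) := by
      nlinarith [mul_nonneg hν (sub_nonneg.2 hx1), mul_nonneg (sub_nonneg.2 hx0) (sub_nonneg.2 hx1),
        mul_nonneg hq hν, mul_nonneg hq (sub_nonneg.2 hx1),
        mul_nonneg (sub_nonneg.2 hk0) (sub_nonneg.2 hk1),
        mul_nonneg (mul_nonneg (sub_nonneg.2 hk0) (sub_nonneg.2 hk1)) hq,
        mul_nonneg (sub_nonneg.2 hk0) (sub_nonneg.2 hx1), mul_nonneg (sub_nonneg.2 hk0) hq,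
        mul_nonneg (sub_nonneg.2 hk0) hν]
    linarith
  r2 := by
    intro x ν q w hx0 hx1' hx1'' hν hq he hw0 hw1 hw
    have hx1 : x ≤ 22 / 27 := by linarith
    have hq' : q = 7/5 * x - 13/20 - 3/4 * ν := by linarith
    subst hq'
    have hw2 : w^2 ≤ w * ((k * x + 3/4*ν + 7/4)/(11/4)) := by
      have : w ≤ (k * x + 3/4*ν + 7/4)/(11/4) := by linarith
      nlinarith
    nlinarith [mul_nonneg hν (sub_nonneg.2 hx1), mul_nonneg (sub_nonneg.2 hx0) (sub_nonneg.2 hx1),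
      mul_nonneg hq hν, mul_nonneg hq (sub_nonneg.2 hx1),
      mul_nonneg (sub_nonneg.2 hk0) (sub_nonneg.2 hk1),
      mul_nonneg (mul_nonneg (sub_nonneg.2 hk0) (sub_nonneg.2 hk1)) hq,
      mul_nonneg (sub_nonneg.2 hk0) (sub_nonneg.2 hx1), mul_nonneg (sub_nonneg.2 hk0) hq,
      mul_nonneg (sub_nonneg.2 hk0) hν]
  r3 := by
    intro x ν w y hx hx' hν hy1 he hw0 hw1 hw
    rcases le_or_gt (7 / 20) x with hx0 | hx1
    · refine ⟨_, ?_, Or.inl le_rfl, ?_⟩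
      · linarith
      · subst he
        nlinarith [mul_nonneg hν (sub_nonneg.2 hx'), mul_nonneg (sub_nonneg.2 hx0)
          (sub_nonneg.2 hx'), mul_nonneg (sub_nonneg.2 hk0) (sub_nonneg.2 hk1),
          mul_nonneg (sub_nonneg.2 hk0) (sub_nonneg.2 hx'), mul_nonneg (sub_nonneg.2 hk0) hν,
          sq_nonneg (w - 2*(x-(12/25+1/20*k)))]
    · refine ⟨_, ?_, Or.inr le_rfl, ?_⟩
      · linarith
      · subst he
        nlinarith [mul_nonneg hν (sub_nonneg.2 hx1.le), mul_nonneg hx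
          (sub_nonneg.2 hx1.le), mul_nonneg (sub_nonneg.2 hk0) (sub_nonneg.2 hk1),
          mul_nonneg (sub_nonneg.2 hk0) (sub_nonneg.2 hx1.le), mul_nonneg (sub_nonneg.2 hk0) hν,
          sq_nonneg (w - 2*(x-(12/25+1/20*k)))]

/-- The range `6 / 5 ≤ κ ≤ 7 / 5`. -/
theorem polB {k : ℝ} (hk0 : 6 / 5 ≤ k) (hk1 : k ≤ 7 / 5) :
    Pol k (41 / 25) (103 / 100) (3 / 10) (18 / 25) (159 / 500 + 1 / 100 * k) (4 / 5)
      (fun _ => 1 / 1000) where
  a1 := by norm_num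
  a2 := by norm_num
  b2 := by norm_num
  ab2 := by norm_num
  c0 := by norm_num
  d0 := by linarith
  l0 := by norm_num
  l1 := by norm_num
  r1 := by
    intro x ν q w hx hx1 hx0' hν hq he hw0 hw1 hw'
    have hx0 : 34 / 61 ≤ x := by linarith
    have hq' : q = 41/25 * x - 16/25 - 4/5 * ν := by linarith
    have hw : 41/25 * w ≤ k * x + 4/5*ν + 16/25 := by linarith
    subst hq'
    rcases le_or_gt (41/25) (k * x + 4/5*ν + 16/25) with h | h
    · have h2 : w^2 ≤ 1 := by nlinarith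
      nlinarith [mul_nonneg hν (sub_nonneg.2 hx1), mul_nonneg (sub_nonneg.2 hx0)
        (sub_nonneg.2 hx1), mul_nonneg hq hν, mul_nonneg hq (sub_nonneg.2 hx1),
        mul_nonneg (sub_nonneg.2 hk0) (sub_nonneg.2 hk1),
        mul_nonneg (mul_nonneg (sub_nonneg.2 hk0) (sub_nonneg.2 hk1)) hq,
        mul_nonneg (sub_nonneg.2 hk0) (sub_nonneg.2 hx1), mul_nonneg (sub_nonneg.2 hk0) hq,
        mul_nonneg (sub_nonneg.2 hk0) hν, mul_nonneg (sub_nonneg.2 h) (sub_nonneg.2 hx1),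
        mul_nonneg (sub_nonneg.2 h) hq]
    · have h2 : w^2 ≤ ((k * x + 4/5*ν + 16/25)/(41/25))^2 := by
        apply pow_le_pow_left₀ hw0
        linarith
      nlinarith [mul_nonneg hν (sub_nonneg.2 hx1), mul_nonneg (sub_nonneg.2 hx0)
        (sub_nonneg.2 hx1), mul_nonneg hq hν, mul_nonneg hq (sub_nonneg.2 hx1),
        mul_nonneg (sub_nonneg.2 hk0) (sub_nonneg.2 hk1),
        mul_nonneg (mul_nonneg (sub_nonneg.2 hk0) (sub_nonneg.2 hk1)) hq,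
        mul_nonneg (sub_nonneg.2 hk0) (sub_nonneg.2 hx1), mul_nonneg (sub_nonneg.2 hk0) hq,
        mul_nonneg (sub_nonneg.2 hk0) hν, mul_nonneg (sub_nonneg.2 h.le) (sub_nonneg.2 hx1),
        mul_nonneg (sub_nonneg.2 h.le) hq]
  r2 := by
    intro x ν q w hx0 hx1' hx1'' hν hq he hw0 hw1 hw'
    have hx1 : x ≤ 34 / 61 := by linarith
    have hq' : q = 103/100 * x - 3/10 - 4/5 * ν := by linarith
    have hw : 41/25 * w ≤ k * x + 4/5*ν + 16/25 := by linarith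
    subst hq'
    have h2 : w^2 ≤ ((k * x + 4/5*ν + 16/25)/(41/25))^2 := by
      apply pow_le_pow_left₀ hw0
      linarith
    nlinarith [mul_nonneg hν (sub_nonneg.2 hx1), mul_nonneg (sub_nonneg.2 hx0) (sub_nonneg.2 hx1),
      mul_nonneg hq hν, mul_nonneg hq (sub_nonneg.2 hx1),
      mul_nonneg (sub_nonneg.2 hk0) (sub_nonneg.2 hk1),
      mul_nonneg (mul_nonneg (sub_nonneg.2 hk0) (sub_nonneg.2 hk1)) hq,
      mul_nonneg (sub_nonneg.2 hk0) (sub_nonneg.2 hx1), mul_nonneg (sub_nonneg.2 hk0) hq,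
      mul_nonneg (sub_nonneg.2 hk0) hν]
  r3 := by
    intro x ν w y hx hx' hν hy1 he hw0 hw1 hw
    rcases le_or_gt (3 / 10) x with hx0 | hx1
    · refine ⟨_, ?_, Or.inl le_rfl, ?_⟩
      · linarith
      · subst he
        nlinarith [mul_nonneg hν (sub_nonneg.2 hx'), mul_nonneg (sub_nonneg.2 hx0)
          (sub_nonneg.2 hx'), mul_nonneg (sub_nonneg.2 hk0) (sub_nonneg.2 hk1),
          mul_nonneg (sub_nonneg.2 hk0) (sub_nonneg.2 hx'), mul_nonneg (sub_nonneg.2 hk0) hν,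
          sq_nonneg (w - 25/18*(x-(159/500+1/100*k)))]
    · refine ⟨_, ?_, Or.inr le_rfl, ?_⟩
      · linarith
      · subst he
        nlinarith [mul_nonneg hν (sub_nonneg.2 hx1.le), mul_nonneg hx
          (sub_nonneg.2 hx1.le), mul_nonneg (sub_nonneg.2 hk0) (sub_nonneg.2 hk1),
          mul_nonneg (sub_nonneg.2 hk0) (sub_nonneg.2 hx1.le), mul_nonneg (sub_nonneg.2 hk0) hν,
          sq_nonneg (w - 25/18*(x-(159/500+1/100*k)))]

/-- The range `1 ≤ κ ≤ 6 / 5`. -/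
theorem polA {k : ℝ} (hk0 : 1 ≤ k) (hk1 : k ≤ 6 / 5) :
    Pol k (177 / 100) (53 / 50) (7 / 20) (63 / 100) (37 / 100 + 2 / 25 * (k - 1)) (18 / 25)
      (fun _ => 1 / 1000 * (k - 1)) where
  a1 := by norm_num
  a2 := by norm_num
  b2 := by norm_num
  ab2 := by norm_num
  c0 := by norm_num
  d0 := by linarith
  l0 := by norm_num
  l1 := by norm_num
  r1 := by
    intro x ν q w hx hx1 hx0' hν hq he hw0 hw1 hw'
    have hx0 : 42 / 71 ≤ x := by linarith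
    have hq' : q = 177/100 * x - 77/100 - 18/25 * ν := by linarith
    have hw : 177/100 * w ≤ k * x + 18/25*ν + 77/100 := by linarith
    subst hq'
    rcases le_or_gt (177/100) (k * x + 18/25*ν + 77/100) with h | h
    · have h2 : w^2 ≤ 1 := by nlinarith
      nlinarith [mul_nonneg hν (sub_nonneg.2 hx1), mul_nonneg (sub_nonneg.2 hx0)
        (sub_nonneg.2 hx1), mul_nonneg hq hν, mul_nonneg hq (sub_nonneg.2 hx1),
        mul_nonneg (sub_nonneg.2 hk0) (sub_nonneg.2 hk1),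
        mul_nonneg (mul_nonneg (sub_nonneg.2 hk0) (sub_nonneg.2 hk1)) hq,
        mul_nonneg (sub_nonneg.2 hk0) (sub_nonneg.2 hx1), mul_nonneg (sub_nonneg.2 hk0) hq,
        mul_nonneg (sub_nonneg.2 hk0) hν, mul_nonneg (sub_nonneg.2 h) (sub_nonneg.2 hx1),
        mul_nonneg (sub_nonneg.2 h) hq]
    · have h2 : w^2 ≤ ((k * x + 18/25*ν + 77/100)/(177/100))^2 := by
        apply pow_le_pow_left₀ hw0
        linarith
      nlinarith [mul_nonneg hν (sub_nonneg.2 hx1), mul_nonneg (sub_nonneg.2 hx0)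
        (sub_nonneg.2 hx1), mul_nonneg hq hν, mul_nonneg hq (sub_nonneg.2 hx1),
        mul_nonneg (sub_nonneg.2 hk0) (sub_nonneg.2 hk1),
        mul_nonneg (mul_nonneg (sub_nonneg.2 hk0) (sub_nonneg.2 hk1)) hq,
        mul_nonneg (sub_nonneg.2 hk0) (sub_nonneg.2 hx1), mul_nonneg (sub_nonneg.2 hk0) hq,
        mul_nonneg (sub_nonneg.2 hk0) hν, mul_nonneg (sub_nonneg.2 h.le) (sub_nonneg.2 hx1),
        mul_nonneg (sub_nonneg.2 h.le) hq]
  r2 := by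
    intro x ν q w hx0 hx1' hx1'' hν hq he hw0 hw1 hw'
    have hx1 : x ≤ 42 / 71 := by linarith
    have hq' : q = 53/50 * x - 7/20 - 18/25 * ν := by linarith
    have hw : 177/100 * w ≤ k * x + 18/25*ν + 77/100 := by linarith
    subst hq'
    have h2 : w^2 ≤ ((k * x + 18/25*ν + 77/100)/(177/100))^2 := by
      apply pow_le_pow_left₀ hw0
      linarith
    have h3 : 1/1000 ≤ 4*k*x^2 - 4*(53/50 * x - 7/20 - 18/25 * ν)
        *(63/100*(53/50 * x - 7/20 - 18/25 * ν) + k*(37/100+2/25*(k-1)))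
        - 4*ν*(53/50 * x - 7/20 - 18/25 * ν) - 53/50*w^2
        + 53/50*x*((53/50 * x - 7/20 - 18/25 * ν)+ν) := by
      nlinarith [mul_nonneg hν (sub_nonneg.2 hx1), mul_nonneg (sub_nonneg.2 hx0)
        (sub_nonneg.2 hx1), mul_nonneg hq hν, mul_nonneg hq (sub_nonneg.2 hx1),
        mul_nonneg (sub_nonneg.2 hk0) (sub_nonneg.2 hk1),
        mul_nonneg (mul_nonneg (sub_nonneg.2 hk0) (sub_nonneg.2 hk1)) hq,
        mul_nonneg (sub_nonneg.2 hk0) (sub_nonneg.2 hx1), mul_nonneg (sub_nonneg.2 hk0) hq,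
        mul_nonneg (sub_nonneg.2 hk0) hν]
    linarith
  r3 := by
    intro x ν w y hx hx' hν hy1 he hw0 hw1 hw
    rcases le_or_gt (3 / 8) x with hx0 | hx1
    · refine ⟨_, ?_, Or.inl le_rfl, ?_⟩
      · linarith
      · subst he
        nlinarith [mul_nonneg hν (sub_nonneg.2 hx'), mul_nonneg (sub_nonneg.2 hx0)
          (sub_nonneg.2 hx'), mul_nonneg (sub_nonneg.2 hk0) (sub_nonneg.2 hk1),
          mul_nonneg (sub_nonneg.2 hk0) (sub_nonneg.2 hx'), mul_nonneg (sub_nonneg.2 hk0) hν,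
          sq_nonneg (w - 100/63*(x-(37/100+2/25*(k-1)))), sq_nonneg (1-x)]
    · refine ⟨_, ?_, Or.inr le_rfl, ?_⟩
      · linarith
      · subst he
        have h3 : 1/1000 ≤ 63/100*(w^2 - k*x*(63/100 * x + (37/100+2/25*(k-1))) - ν * x)
            - 4*(x^2 - (63/100 * x + (37/100+2/25*(k-1)))
              * (53/50*(63/100 * x + (37/100+2/25*(k-1)))-7/20))
            + 28/25*ν * (63/100 * x + (37/100+2/25*(k-1))) := by
          nlinarith [mul_nonneg hν (sub_nonneg.2 hx1.le), mul_nonneg hx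
            (sub_nonneg.2 hx1.le), mul_nonneg (sub_nonneg.2 hk0) (sub_nonneg.2 hk1),
            mul_nonneg (sub_nonneg.2 hk0) (sub_nonneg.2 hx1.le), mul_nonneg (sub_nonneg.2 hk0) hν,
            sq_nonneg (w - 100/63*(x-(37/100+2/25*(k-1))))]
        linarith

theorem pol_all {κ : ℝ} (h1 : 1 ≤ κ) (h4 : κ ≤ 4) :
    ∃ a₁ a₂ b₂ c d lam : ℝ, Pol κ a₁ a₂ b₂ c d lam (fun _ => (κ - 1) / 4000) := by
  rcases le_or_gt κ (6 / 5) with h | h
  · exact ⟨_, _, _, _, _, _, (polA h1 h).mono fun _ => by linarith⟩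
  · rcases le_or_gt κ (7 / 5) with h' | h'
    · exact ⟨_, _, _, _, _, _, (polB h.le h').mono fun _ => by linarith⟩
    · exact ⟨_, _, _, _, _, _, (polD h'.le h4).mono fun _ => by linarith⟩

/-- For `1 < Q ≤ 4` there are invariant regions with `ρ` arbitrarily close to one. -/
theorem reg_exists {Q η : ℝ} (hQ1 : 1 < Q) (hQ4 : Q ≤ 4) (hη : 0 < η) :
    ∃ ρ : ℝ, 1 < ρ ∧ ρ ≤ 1 + η ∧ ∃ a₁ a₂ b₂ c d lam : ℝ, Reg (Q / ρ ^ 3) ρ a₁ a₂ b₂ c d lam 0 := by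
  have hcont : ContinuousAt (fun θ : ℝ => (Q / (1 + θ) ^ 3 - 1) / 4000 - 16 * θ) 0 := by
    have h1 : ContinuousAt (fun θ : ℝ => Q / (1 + θ) ^ 3) 0 := by
      apply ContinuousAt.div continuousAt_const (by fun_prop)
      norm_num
    fun_prop
  have hpos : 0 < (fun θ : ℝ => (Q / (1 + θ) ^ 3 - 1) / 4000 - 16 * θ) 0 := by
    norm_num
    linarith
  have hev := hcont.eventually (lt_mem_nhds hpos)
  obtain ⟨δ, hδ, hball⟩ := Metric.eventually_nhds_iff.1 hev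
  obtain ⟨θ, hθ⟩ : ∃ θ, θ = min (δ / 2) η := ⟨_, rfl⟩
  have hθ0 : 0 < θ := by rw [hθ]; exact lt_min (by positivity) hη
  have hθη : θ ≤ η := by rw [hθ]; exact min_le_right _ _
  have hθδ : θ ≤ δ / 2 := by rw [hθ]; exact min_le_left _ _
  have h1 : 0 < (Q / (1 + θ) ^ 3 - 1) / 4000 - 16 * θ := hball (by
    rw [Real.dist_eq, sub_zero, abs_of_pos hθ0]
    linarith)
  have h2 : (1 : ℝ) ≤ (1 + θ) ^ 3 := one_le_pow₀ (by linarith)
  have h3 : Q / (1 + θ) ^ 3 ≤ 4 := (div_le_self (by linarith) h2).trans hQ4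
  have h4 : 1 ≤ Q / (1 + θ) ^ 3 := by linarith
  obtain ⟨a₁, a₂, b₂, c, d, lam, hP⟩ := pol_all h4 h3
  exact ⟨1 + θ, by linarith, by linarith, a₁, a₂, b₂, c, d, lam,
    reg_of hP (by linarith) h3 (by linarith) fun _ _ => by linarith⟩

/-- The range `99 / 100 ≤ κ ≤ 1`, used for `β = 3`. -/
theorem polE {k : ℝ} (hk0 : 99 / 100 ≤ k) (hk1 : k ≤ 1) :
    Pol k (177 / 100) (53 / 50) (7 / 20) (63 / 100) (37 / 100) (18 / 25)
      (fun ν => 1 / 1000 * ν - 20 * (1 - k)) where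
  a1 := by norm_num
  a2 := by norm_num
  b2 := by norm_num
  ab2 := by norm_num
  c0 := by norm_num
  d0 := by norm_num
  l0 := by norm_num
  l1 := by norm_num
  r1 := by
    intro x ν q w hx hx1 hx0' hν hq he hw0 hw1 hw'
    have hx0 : 42 / 71 ≤ x := by linarith
    have hq' : q = 177/100 * x - 77/100 - 18/25 * ν := by linarith
    have hw : 177/100 * w ≤ k * x + 18/25*ν + 77/100 := by linarith
    subst hq'
    rcases le_or_gt (177/100) (k * x + 18/25*ν + 77/100) with h | h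
    · have h2 : w^2 ≤ 1 := by nlinarith
      nlinarith [mul_nonneg hν (sub_nonneg.2 hx1), mul_nonneg (sub_nonneg.2 hx0)
        (sub_nonneg.2 hx1), mul_nonneg hq hν, mul_nonneg hq (sub_nonneg.2 hx1),
        mul_nonneg (sub_nonneg.2 hk0) (sub_nonneg.2 hk1),
        mul_nonneg (mul_nonneg (sub_nonneg.2 hk0) (sub_nonneg.2 hk1)) hq,
        mul_nonneg (sub_nonneg.2 hk1) (sub_nonneg.2 hx1), mul_nonneg (sub_nonneg.2 hk1) hq,
        mul_nonneg (sub_nonneg.2 hk1) hν, mul_nonneg (sub_nonneg.2 h) (sub_nonneg.2 hx1),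
        mul_nonneg (sub_nonneg.2 h) hq]
    · have h2 : w^2 ≤ ((k * x + 18/25*ν + 77/100)/(177/100))^2 := by
        apply pow_le_pow_left₀ hw0
        linarith
      nlinarith [mul_nonneg hν (sub_nonneg.2 hx1), mul_nonneg (sub_nonneg.2 hx0)
        (sub_nonneg.2 hx1), mul_nonneg hq hν, mul_nonneg hq (sub_nonneg.2 hx1),
        mul_nonneg (sub_nonneg.2 hk0) (sub_nonneg.2 hk1),
        mul_nonneg (mul_nonneg (sub_nonneg.2 hk0) (sub_nonneg.2 hk1)) hq,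
        mul_nonneg (sub_nonneg.2 hk1) (sub_nonneg.2 hx1), mul_nonneg (sub_nonneg.2 hk1) hq,
        mul_nonneg (sub_nonneg.2 hk1) hν, mul_nonneg (sub_nonneg.2 h.le) (sub_nonneg.2 hx1),
        mul_nonneg (sub_nonneg.2 h.le) hq]
  r2 := by
    intro x ν q w hx0 hx1' hx1'' hν hq he hw0 hw1 hw'
    have hx1 : x ≤ 42 / 71 := by linarith
    have hq' : q = 53/50 * x - 7/20 - 18/25 * ν := by linarith
    have hw : 177/100 * w ≤ k * x + 18/25*ν + 77/100 := by linarith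
    subst hq'
    have h2 : w^2 ≤ ((k * x + 18/25*ν + 77/100)/(177/100))^2 := by
      apply pow_le_pow_left₀ hw0
      linarith
    nlinarith [mul_nonneg hν (sub_nonneg.2 hx1), mul_nonneg (sub_nonneg.2 hx0)
      (sub_nonneg.2 hx1), mul_nonneg hq hν, mul_nonneg hq (sub_nonneg.2 hx1),
      mul_nonneg (sub_nonneg.2 hk0) (sub_nonneg.2 hk1),
      mul_nonneg (mul_nonneg (sub_nonneg.2 hk0) (sub_nonneg.2 hk1)) hq,
      mul_nonneg (sub_nonneg.2 hk1) (sub_nonneg.2 hx1), mul_nonneg (sub_nonneg.2 hk1) hq,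
      mul_nonneg (sub_nonneg.2 hk1) hν]
  r3 := by
    intro x ν w y hx hx' hν hy1 he hw0 hw1 hw
    rcases le_or_gt (3 / 8) x with hx0 | hx1
    · refine ⟨_, ?_, Or.inl le_rfl, ?_⟩
      · linarith
      · subst he
        nlinarith [mul_nonneg hν (sub_nonneg.2 hx'), mul_nonneg (sub_nonneg.2 hx0)
          (sub_nonneg.2 hx'), mul_nonneg (sub_nonneg.2 hk0) (sub_nonneg.2 hk1),
          mul_nonneg (sub_nonneg.2 hk1) (sub_nonneg.2 hx'), mul_nonneg (sub_nonneg.2 hk1) hν,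
          sq_nonneg (w - 100/63*(x-(37/100))), sq_nonneg (1-x)]
    · refine ⟨_, ?_, Or.inr le_rfl, ?_⟩
      · linarith
      · subst he
        nlinarith [mul_nonneg hν (sub_nonneg.2 hx1.le), mul_nonneg hx
          (sub_nonneg.2 hx1.le), mul_nonneg (sub_nonneg.2 hk0) (sub_nonneg.2 hk1),
          mul_nonneg (sub_nonneg.2 hk1) (sub_nonneg.2 hx1.le), mul_nonneg (sub_nonneg.2 hk1) hν,
          sq_nonneg (w - 100/63*(x-(37/100)))]

/-- For `Q = 1` there are invariant regions for the shells with relative viscosity at least `νm`,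
with fixed parameters and with `ρ` arbitrarily close to one. -/
theorem reg_three {νm η : ℝ} (hνm : 0 < νm) (hη : 0 < η) :
    ∃ ρ : ℝ, 1 < ρ ∧ ρ ≤ 1 + η ∧
      Reg (1 / ρ ^ 3) ρ (177 / 100) (53 / 50) (7 / 20) (63 / 100) (37 / 100) (18 / 25) νm := by
  have hcont : ContinuousAt (fun θ : ℝ => 1 / 1000 * νm - 20 * (1 - 1 / (1 + θ) ^ 3) - 16 * θ)
      0 := by
    have h1 : ContinuousAt (fun θ : ℝ => 1 / (1 + θ) ^ 3) 0 := by
      apply ContinuousAt.div continuousAt_const (by fun_prop)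
      norm_num
    fun_prop
  have hcont2 : ContinuousAt (fun θ : ℝ => 1 / (1 + θ) ^ 3) 0 := by
    apply ContinuousAt.div continuousAt_const (by fun_prop)
    norm_num
  have hpos : 0 < (fun θ : ℝ => 1 / 1000 * νm - 20 * (1 - 1 / (1 + θ) ^ 3) - 16 * θ) 0 := by
    norm_num
    exact hνm
  have hpos2 : 99 / 100 < (fun θ : ℝ => 1 / (1 + θ) ^ 3) 0 := by norm_num
  have hev := (hcont.eventually (lt_mem_nhds hpos)).and (hcont2.eventually (lt_mem_nhds hpos2))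
  obtain ⟨δ, hδ, hball⟩ := Metric.eventually_nhds_iff.1 hev
  obtain ⟨θ, hθ⟩ : ∃ θ, θ = min (δ / 2) η := ⟨_, rfl⟩
  have hθ0 : 0 < θ := by rw [hθ]; exact lt_min (by positivity) hη
  have hθη : θ ≤ η := by rw [hθ]; exact min_le_right _ _
  have hθδ : θ ≤ δ / 2 := by rw [hθ]; exact min_le_left _ _
  obtain ⟨h1, h2⟩ := hball (show dist θ 0 < δ by
    rw [Real.dist_eq, sub_zero, abs_of_pos hθ0]
    linarith)
  have h3 : (1 : ℝ) ≤ (1 + θ) ^ 3 := one_le_pow₀ (by linarith)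
  have h4 : 1 / (1 + θ) ^ 3 ≤ 1 := div_le_self (by norm_num) h3
  refine ⟨1 + θ, by linarith, by linarith, reg_of (polE h2.le h4) (by positivity) (by linarith)
    (by linarith) fun ν hν => ?_⟩
  have h5 : 1 / 1000 * νm ≤ 1 / 1000 * ν := by linarith
  linarith

end Run7.h969.Dy
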